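import Pool.Agent.N906.SZ.Stm

set_option autoImplicit false

namespace Pool.Agent.N92.SZ

open Finset Filter Topology Pool.Agent.N906.SZ

/-- `6 ^ ω(n) ≤ C n ^ δ` -/
theorem omega_bound (δ : ℝ) (hδ : 0 < δ) : ∃ C : ℝ, 0 < C ∧ ∀ n : ℕ, 1 ≤ n →
    (6 : ℝ) ^ n.primeFactors.card ≤ C * (n : ℝ) ^ δ := by
  classical
  set B : ℕ := ⌈(6 : ℝ) ^ (1 / δ)⌉₊ with hB
  have hBp : ∀ p : ℕ, B ≤ p → (6 : ℝ) ≤ (p : ℝ) ^ δ := by
    intro p hp
    have h1 : (6 : ℝ) ^ (1 / δ) ≤ p := (Nat.le_ceil _).trans (by exact_mod_cast hp)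
    calc (6 : ℝ) = ((6 : ℝ) ^ (1 / δ)) ^ δ := by
          rw [← Real.rpow_mul (by norm_num), one_div_mul_cancel hδ.ne', Real.rpow_one]
      _ ≤ (p : ℝ) ^ δ := Real.rpow_le_rpow (by positivity) h1 hδ.le
  refine ⟨6 ^ B, by positivity, ?_⟩
  intro n hn
  have h1 : (6 : ℝ) ^ n.primeFactors.card = ∏ p ∈ n.primeFactors, (6 : ℝ) := by
    rw [Finset.prod_const]
  have h2 : ∏ p ∈ n.primeFactors, (6 : ℝ) ≤
      ∏ p ∈ n.primeFactors, ((if p < B then (6 : ℝ) else 1) * (p : ℝ) ^ δ) := by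
    apply Finset.prod_le_prod
    · intro p _; norm_num
    · intro p hp
      have hp1 : (1 : ℝ) ≤ p := by exact_mod_cast (Nat.prime_of_mem_primeFactors hp).one_lt.le
      have hpd : 1 ≤ (p : ℝ) ^ δ := Real.one_le_rpow hp1 hδ.le
      split_ifs with h
      · linarith
      · rw [one_mul]; exact hBp p (by omega)
  have h3 : ∏ p ∈ n.primeFactors, (if p < B then (6 : ℝ) else 1) ≤ 6 ^ B := by
    rw [Finset.prod_ite, Finset.prod_const, Finset.prod_const, one_pow, mul_one]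
    apply pow_le_pow_right₀ (by norm_num)
    calc (n.primeFactors.filter (fun p => p < B)).card ≤ (range B).card := by
          apply Finset.card_le_card
          intro p hp
          rw [Finset.mem_filter] at hp
          exact Finset.mem_range.mpr hp.2
      _ = B := Finset.card_range B
  have h4 : ∏ p ∈ n.primeFactors, (p : ℝ) ^ δ ≤ (n : ℝ) ^ δ := by
    rw [Real.finsetProd_rpow _ _ (fun p _ => by positivity)]
    apply Real.rpow_le_rpow (by positivity) _ hδ.le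
    have h5 := Nat.le_of_dvd (by omega) (Nat.prod_primeFactors_dvd n)
    have h6 : ((∏ p ∈ n.primeFactors, p : ℕ) : ℝ) ≤ n := by exact_mod_cast h5
    rwa [Nat.cast_prod] at h6
  calc (6 : ℝ) ^ n.primeFactors.card = ∏ p ∈ n.primeFactors, (6 : ℝ) := h1
    _ ≤ _ := h2
    _ = (∏ p ∈ n.primeFactors, (if p < B then (6 : ℝ) else 1)) *
        ∏ p ∈ n.primeFactors, (p : ℝ) ^ δ := Finset.prod_mul_distrib
    _ ≤ 6 ^ B * (n : ℝ) ^ δ := by
        apply mul_le_mul h3 h4 (Finset.prod_nonneg (fun p _ => by positivity)) (by positivity)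

theorem rd_pos (n : ℕ) : 1 ≤ rd n := by
  unfold rd
  apply Nat.one_le_iff_ne_zero.mpr
  rw [Finset.prod_ne_zero_iff]
  intro p hp
  rw [Finset.mem_filter] at hp
  omega

theorem cc_pos (n : ℕ) : 1 ≤ cc n := by
  unfold cc
  apply Nat.one_le_iff_ne_zero.mpr
  rw [Finset.prod_ne_zero_iff]
  intro p _
  split_ifs <;> norm_num

/-- the sum over the divisors beyond `V` -/
theorem tail_sum (h3 : S_GENU) (δ : ℝ) (hδ : 0 < δ) (hδ1 : δ ≤ 1 / 4) :
    ∃ K θ : ℝ, 0 < K ∧ 0 < θ ∧ θ ≤ 2 * δ ∧ ∀ (V : ℝ) (N : Finset ℕ), 0 < V →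
      (∀ n ∈ N, V < n) →
      ∑ n ∈ N, (6 : ℝ) ^ n.primeFactors.card / (n * rd n : ℕ) ≤ K * V ^ (θ - 1) := by
  obtain ⟨u₀, hu0, -, hu⟩ := h3 1 one_pos
  obtain ⟨C, hC, hom⟩ := omega_bound δ hδ
  set u : ℝ := min (u₀ / 2) δ with hud
  have hu1 : 0 < u := lt_min (by positivity) hδ
  have hu2 : u < u₀ := (min_le_left _ _).trans_lt (by linarith)
  have hu3 : u ≤ δ := min_le_right _ _
  set G : ℝ := Real.exp ((1 + 1) * 2 / (u * Real.log (1 / u))) with hG
  refine ⟨C * G, δ + u, by positivity, by positivity, by linarith, ?_⟩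
  intro V N hV hN
  have hn1 : ∀ n ∈ N, 1 ≤ n := by
    intro n hn
    have h1 : (0 : ℝ) < n := hV.trans (hN n hn)
    exact_mod_cast h1
  have hg := hu u hu1 hu2 N hn1
  calc ∑ n ∈ N, (6 : ℝ) ^ n.primeFactors.card / (n * rd n : ℕ)
      ≤ ∑ n ∈ N, (C * V ^ (δ + u - 1)) * ((cc n : ℝ) * (n : ℝ) ^ (-u) / rd n) := by
        apply Finset.sum_le_sum
        intro n hn
        have hn0 : (0 : ℝ) < n := by exact_mod_cast hn1 n hn
        have hr : (0 : ℝ) < rd n := by exact_mod_cast rd_pos n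
        have hc : (1 : ℝ) ≤ cc n := by exact_mod_cast cc_pos n
        have e1 : (n : ℝ) ^ δ / n = (n : ℝ) ^ (δ + u - 1) * (n : ℝ) ^ (-u) := by
          rw [← Real.rpow_add hn0, div_eq_mul_inv, ← Real.rpow_neg_one, ← Real.rpow_add hn0]
          congr 1
          ring
        have e2 : (n : ℝ) ^ (δ + u - 1) ≤ V ^ (δ + u - 1) :=
          Real.rpow_le_rpow_of_nonpos hV (hN n hn).le (by linarith)
        push_cast
        rw [← div_div]
        rw [mul_div_assoc', div_le_div_iff_of_pos_right hr]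
        calc (6 : ℝ) ^ n.primeFactors.card / n ≤ C * (n : ℝ) ^ δ / n := by
              apply div_le_div_of_nonneg_right (hom n (hn1 n hn)) hn0.le
          _ = C * ((n : ℝ) ^ (δ + u - 1) * (n : ℝ) ^ (-u)) := by rw [mul_div_assoc, e1]
          _ ≤ C * (V ^ (δ + u - 1) * (1 * (n : ℝ) ^ (-u))) := by
              rw [one_mul]
              apply mul_le_mul_of_nonneg_left _ hC.le
              apply mul_le_mul_of_nonneg_right e2 (by positivity)
          _ ≤ C * (V ^ (δ + u - 1) * ((cc n : ℝ) * (n : ℝ) ^ (-u))) := by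
              apply mul_le_mul_of_nonneg_left _ hC.le
              apply mul_le_mul_of_nonneg_left _ (by positivity)
              apply mul_le_mul_of_nonneg_right hc (by positivity)
          _ = _ := by ring
    _ = (C * V ^ (δ + u - 1)) * ∑ n ∈ N, (cc n : ℝ) * (n : ℝ) ^ (-u) / rd n := by
        rw [Finset.mul_sum]
    _ ≤ (C * V ^ (δ + u - 1)) * G := mul_le_mul_of_nonneg_left hg (by positivity)
    _ = C * G * V ^ (δ + u - 1) := by ring

/-- PERA summed over a set of moduli -/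
theorem pera_sum (C K θ : ℝ) (hC : 0 < C)
    (hp : ∀ (X Y : ℝ) (n : ℕ), 1 ≤ X → 1 ≤ Y → 1 ≤ n → n.Coprime 6 →
      ∀ F : Finset (ℤ × ℤ), (∀ x ∈ F, x.1 ≠ 0 ∧ Mn x.1 x.2 ∧ |(x.1 : ℝ)| ≤ X ^ 2 ∧
        |((Dd x.1 x.2 : ℤ) : ℝ)| ≤ Y ∧ Cn n x.1 x.2) →
        (F.card : ℝ) ≤ C * 6 ^ n.primeFactors.card * (Y ^ (5 / 6 : ℝ) / (n * rd n : ℕ) + X ^ 2))
    (ht : ∀ (V : ℝ) (N : Finset ℕ), 0 < V → (∀ n ∈ N, V < n) →
      ∑ n ∈ N, (6 : ℝ) ^ n.primeFactors.card / (n * rd n : ℕ) ≤ K * V ^ (θ - 1))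
    (X Y V A : ℝ) (hX : 1 ≤ X) (hY : 1 ≤ Y) (hV : 0 < V) (N : Finset ℕ)
    (hN : ∀ n ∈ N, V < n ∧ n.Coprime 6 ∧ (6 : ℝ) ^ n.primeFactors.card ≤ A)
    (F : Finset (ℤ × ℤ)) (hF : ∀ x ∈ F, x.1 ≠ 0 ∧ Mn x.1 x.2 ∧ |(x.1 : ℝ)| ≤ X ^ 2 ∧
        |((Dd x.1 x.2 : ℤ) : ℝ)| ≤ Y ∧ ∃ n ∈ N, Cn n x.1 x.2) :
    (F.card : ℝ) ≤ C * (Y ^ (5 / 6 : ℝ) * (K * V ^ (θ - 1)) + X ^ 2 * (A * N.card)) := by
  classical
  have hn1 : ∀ n ∈ N, 1 ≤ n := by
    intro n hn
    have h1 : (0 : ℝ) < n := hV.trans (hN n hn).1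
    exact_mod_cast h1
  have hcov : F ⊆ N.biUnion (fun n => F.filter (fun x => Cn n x.1 x.2)) := by
    intro x hx
    obtain ⟨n, hn, hCn⟩ := (hF x hx).2.2.2.2
    rw [Finset.mem_biUnion]
    exact ⟨n, hn, Finset.mem_filter.mpr ⟨hx, hCn⟩⟩
  calc (F.card : ℝ) ≤ ((∑ n ∈ N, (F.filter (fun x => Cn n x.1 x.2)).card : ℕ) : ℝ) := by
        exact_mod_cast (Finset.card_le_card hcov).trans Finset.card_biUnion_le
    _ = ∑ n ∈ N, ((F.filter (fun x => Cn n x.1 x.2)).card : ℝ) := by push_cast; rfl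
    _ ≤ ∑ n ∈ N, (C * Y ^ (5 / 6 : ℝ) * ((6 : ℝ) ^ n.primeFactors.card / (n * rd n : ℕ)) +
          C * X ^ 2 * A) := by
        apply Finset.sum_le_sum
        intro n hn
        have h := hp X Y n hX hY (hn1 n hn) (hN n hn).2.1 (F.filter (fun x => Cn n x.1 x.2)) (by
          intro x hx
          rw [Finset.mem_filter] at hx
          obtain ⟨h1, h2, h3, h4, -⟩ := hF x hx.1
          exact ⟨h1, h2, h3, h4, hx.2⟩)
        refine h.trans ?_
        have h2 : C * 6 ^ n.primeFactors.card * X ^ 2 ≤ C * X ^ 2 * A := by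
          have := mul_le_mul_of_nonneg_left (hN n hn).2.2 (by positivity : 0 ≤ C * X ^ 2)
          linarith
        calc C * 6 ^ n.primeFactors.card * (Y ^ (5 / 6 : ℝ) / (n * rd n : ℕ) + X ^ 2)
            = C * Y ^ (5 / 6 : ℝ) * ((6 : ℝ) ^ n.primeFactors.card / (n * rd n : ℕ)) +
              C * 6 ^ n.primeFactors.card * X ^ 2 := by ring
          _ ≤ _ := by linarith
    _ = C * Y ^ (5 / 6 : ℝ) * ∑ n ∈ N, ((6 : ℝ) ^ n.primeFactors.card / (n * rd n : ℕ)) +
          N.card * (C * X ^ 2 * A) := by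
        rw [Finset.sum_add_distrib, Finset.sum_const, nsmul_eq_mul, Finset.mul_sum]
    _ ≤ C * Y ^ (5 / 6 : ℝ) * (K * V ^ (θ - 1)) + N.card * (C * X ^ 2 * A) := by
        have := mul_le_mul_of_nonneg_left (ht V N hV (fun n hn => (hN n hn).1))
          (by positivity : 0 ≤ C * Y ^ (5 / 6 : ℝ))
        linarith
    _ = _ := by ring

/-- the first term -/
theorem main_term (lam η θ X Y : ℝ) (hl0 : 0 < lam) (hl1 : lam < 1 / 6) (hη : 0 < η)
    (hθ0 : 0 < θ) (hθ1 : θ ≤ 1 / 2) (hθ2 : θ ≤ η / 4) (hX : 1 ≤ X) (hY : 1 ≤ Y)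
    (hYu : Y ≤ 31 * X ^ 6) :
    Y ^ (5 / 6 : ℝ) * ((Y / 2) ^ lam * X ^ η) ^ (θ - 1) ≤ 62 * X ^ (5 - 6 * lam - η / 4) := by
  have hX0 : 0 < X := by linarith
  have hY0 : 0 < Y := by linarith
  have e1 : ((Y / 2) ^ lam * X ^ η) ^ (θ - 1) =
      (Y / 2) ^ (lam * (θ - 1)) * X ^ (η * (θ - 1)) := by
    rw [Real.mul_rpow (by positivity) (by positivity), ← Real.rpow_mul (by positivity),
      ← Real.rpow_mul (by positivity)]
  have e2 : (Y / 2) ^ (lam * (θ - 1)) = Y ^ (lam * (θ - 1)) * 2 ^ (lam * (1 - θ)) := by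
    rw [div_eq_mul_inv, Real.mul_rpow hY0.le (by norm_num), Real.inv_rpow (by norm_num),
      ← Real.rpow_neg (by norm_num)]
    congr 2
    ring
  have e3 : Y ^ (5 / 6 : ℝ) * Y ^ (lam * (θ - 1)) = Y ^ (5 / 6 - lam * (1 - θ)) := by
    rw [← Real.rpow_add hY0]
    congr 1
    ring
  have hlt : lam * (1 - θ) ≤ 1 / 6 := by nlinarith
  have hlt0 : 0 ≤ lam * (1 - θ) := by
    apply mul_nonneg hl0.le; linarith
  have h2 : (2 : ℝ) ^ (lam * (1 - θ)) ≤ 2 := by
    calc (2 : ℝ) ^ (lam * (1 - θ)) ≤ 2 ^ (1 : ℝ) :=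
          Real.rpow_le_rpow_of_exponent_le (by norm_num) (by linarith)
      _ = 2 := Real.rpow_one 2
  have h3 : Y ^ (5 / 6 - lam * (1 - θ)) ≤ 31 * X ^ (5 - 6 * lam + θ) := by
    calc Y ^ (5 / 6 - lam * (1 - θ)) ≤ (31 * X ^ 6) ^ (5 / 6 - lam * (1 - θ)) :=
          Real.rpow_le_rpow hY0.le hYu (by linarith)
      _ = 31 ^ (5 / 6 - lam * (1 - θ)) * X ^ (6 * (5 / 6 - lam * (1 - θ))) := by
          rw [Real.mul_rpow (by norm_num) (by positivity), ← Real.rpow_natCast X 6,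
            ← Real.rpow_mul hX0.le]
          norm_num
      _ ≤ 31 * X ^ (5 - 6 * lam + θ) := by
          apply mul_le_mul _ _ (by positivity) (by norm_num)
          · calc (31 : ℝ) ^ (5 / 6 - lam * (1 - θ)) ≤ 31 ^ (1 : ℝ) :=
                  Real.rpow_le_rpow_of_exponent_le (by norm_num) (by linarith)
              _ = 31 := Real.rpow_one 31
          · apply Real.rpow_le_rpow_of_exponent_le hX
            have : lam * θ ≤ θ / 6 := by nlinarith
            nlinarith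
  have h4 : X ^ (η * (θ - 1)) ≤ X ^ (-(η / 2)) := by
    apply Real.rpow_le_rpow_of_exponent_le hX
    nlinarith
  calc Y ^ (5 / 6 : ℝ) * ((Y / 2) ^ lam * X ^ η) ^ (θ - 1)
      = 2 ^ (lam * (1 - θ)) * (Y ^ (5 / 6 : ℝ) * Y ^ (lam * (θ - 1))) * X ^ (η * (θ - 1)) := by
        rw [e1, e2]; ring
    _ = 2 ^ (lam * (1 - θ)) * Y ^ (5 / 6 - lam * (1 - θ)) * X ^ (η * (θ - 1)) := by rw [e3]
    _ ≤ 2 * (31 * X ^ (5 - 6 * lam + θ)) * X ^ (-(η / 2)) := by
        apply mul_le_mul _ h4 (by positivity) (by positivity)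
        exact mul_le_mul h2 h3 (by positivity) (by norm_num)
    _ = 62 * X ^ (5 - 6 * lam + θ - η / 2) := by
        rw [mul_assoc, mul_assoc, ← Real.rpow_add hX0]
        ring_nf
    _ ≤ 62 * X ^ (5 - 6 * lam - η / 4) := by
        apply mul_le_mul_of_nonneg_left _ (by norm_num)
        apply Real.rpow_le_rpow_of_exponent_le hX
        linarith

/-- `T² ≤ 16 X ^ (12 lam)` -/
theorem T_sq (lam X Y : ℝ) (hl0 : 0 < lam) (hl1 : lam < 1 / 6) (hX : 1 ≤ X) (hY : 1 ≤ Y)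
    (hYu : Y ≤ 31 * X ^ 6) : ((Y / 2) ^ lam) ^ 2 ≤ 16 * X ^ (12 * lam) := by
  have hX0 : 0 < X := by linarith
  calc ((Y / 2) ^ lam) ^ 2 = (Y / 2) ^ (2 * lam) := by
        rw [← Real.rpow_natCast ((Y / 2) ^ lam) 2, ← Real.rpow_mul (by positivity)]
        congr 1; push_cast; ring
    _ ≤ (16 * X ^ 6) ^ (2 * lam) := by
        apply Real.rpow_le_rpow (by positivity) _ (by positivity)
        have : 0 < X ^ 6 := by positivity
        linarith
    _ = 16 ^ (2 * lam) * X ^ (12 * lam) := by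
        rw [Real.mul_rpow (by norm_num) (by positivity), ← Real.rpow_natCast X 6,
          ← Real.rpow_mul hX0.le]
        congr 2
        push_cast; ring
    _ ≤ 16 * X ^ (12 * lam) := by
        apply mul_le_mul_of_nonneg_right _ (by positivity)
        calc (16 : ℝ) ^ (2 * lam) ≤ 16 ^ (1 : ℝ) :=
              Real.rpow_le_rpow_of_exponent_le (by norm_num) (by linarith)
          _ = 16 := Real.rpow_one 16

/-- a number all of whose maximal proper divisors are `< T` is prime or `≤ T²` -/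
theorem prime_or (n : ℕ) (T : ℝ) (hT : 0 < T) (hn : 2 ≤ n)
    (h : ∀ p ∈ n.primeFactors, (n : ℝ) / p < T) : n.Prime ∨ (n : ℝ) ≤ T ^ 2 := by
  by_cases hp : n.Prime
  · exact Or.inl hp
  right
  have hq : n.minFac.Prime := Nat.minFac_prime (by omega)
  obtain ⟨m, hm⟩ := Nat.minFac_dvd n
  have hm1 : m ≠ 1 := by
    intro h1
    rw [h1, mul_one] at hm
    exact hp (hm ▸ hq)
  have hm0 : m ≠ 0 := by
    intro h0
    rw [h0, mul_zero] at hm
    omega
  have hq' : m.minFac.Prime := Nat.minFac_prime hm1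
  obtain ⟨k, hk⟩ := Nat.minFac_dvd m
  have hk0 : k ≠ 0 := by
    intro h0
    rw [h0, mul_zero] at hk
    exact hm0 hk
  set q := n.minFac with hqd
  set q' := m.minFac with hqd'
  have hqn : q ∈ n.primeFactors := Nat.mem_primeFactors.mpr ⟨hq, ⟨m, hm⟩, by omega⟩
  have hqn' : q' ∈ n.primeFactors :=
    Nat.mem_primeFactors.mpr ⟨hq', ⟨q * k, by rw [hm, hk]; ring⟩, by omega⟩
  have h1 := h q hqn
  have h2 := h q' hqn'
  have hq0 : (0 : ℝ) < q := by exact_mod_cast hq.pos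
  have hq0' : (0 : ℝ) < q' := by exact_mod_cast hq'.pos
  have e1 : (n : ℝ) / q = m := by
    rw [div_eq_iff hq0.ne', hm]; push_cast; ring
  have e2 : (n : ℝ) / q' = q * k := by
    rw [div_eq_iff hq0'.ne', hm, hk]; push_cast; ring
  rw [e1] at h1
  rw [e2] at h2
  have hk1 : (1 : ℝ) ≤ k := by exact_mod_cast Nat.one_le_iff_ne_zero.mpr hk0
  have h3 : (q : ℝ) ≤ T := by nlinarith
  have e3 : (n : ℝ) = q * m := by
    have := congrArg (Nat.cast : ℕ → ℝ) hm
    push_cast at this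
    exact this
  rw [e3, sq]
  exact mul_le_mul h3 h1.le (by positivity) hT.le

/-- UPB from PERA, LP and GENU -/
theorem upb (h1 : S_PERA) (h2 : S_LP) (h3 : S_GENU) : S_UPB := by
  classical
  intro lam η hl0 hl1 hη
  obtain ⟨C, hC, hp⟩ := h1
  set κ : ℝ := (3 - 18 * lam) / 4 with hκ
  have hκ0 : 0 < κ := by rw [hκ]; linarith
  obtain ⟨CL, hCL, hlp⟩ := h2 κ hκ0
  set δ : ℝ := min (min (η / 8) (1 / 4)) (κ / 2) with hδd
  have hδ0 : 0 < δ := lt_min (lt_min (by positivity) (by norm_num)) (by positivity)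
  have hδ1 : δ ≤ 1 / 4 := (min_le_left _ _).trans (min_le_right _ _)
  have hδ2 : δ ≤ η / 8 := (min_le_left _ _).trans (min_le_left _ _)
  have hδ3 : δ ≤ κ / 2 := min_le_right _ _
  obtain ⟨K, θ, hK, hθ0, hθ1, htail⟩ := tail_sum h3 δ hδ0 hδ1
  obtain ⟨Co, hCo, hom⟩ := omega_bound δ hδ0
  set c₀ : ℝ := min (η / 4) κ with hc₀
  have hc0 : 0 < c₀ := lt_min (by positivity) hκ0
  have hc1 : c₀ ≤ η / 4 := min_le_left _ _
  have hc2 : c₀ ≤ κ := min_le_right _ _
  set Kt : ℝ := 2 * (C * (K * 62)) + C * (Co * 256) + C * 6 + CL with hKt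
  have hev : ∀ᶠ X : ℝ in atTop, Kt ≤ X ^ c₀ := (tendsto_rpow_atTop hc0).eventually_ge_atTop Kt
  have hev2 : ∀ᶠ X : ℝ in atTop, 2 ≤ X ^ η := (tendsto_rpow_atTop hη).eventually_ge_atTop 2
  obtain ⟨Xa, hXa⟩ := eventually_atTop.mp hev
  obtain ⟨Xb, hXb⟩ := eventually_atTop.mp hev2
  refine ⟨max (max Xa Xb) 4, by
    have := le_max_right (max Xa Xb) 4
    linarith, ?_⟩
  intro X Y F hX hY hYu hF
  have hXa' := hXa X (((le_max_left _ _).trans (le_max_left _ _)).trans hX)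
  have hXb' := hXb X (((le_max_right _ _).trans (le_max_left _ _)).trans hX)
  have hX4 : (4 : ℝ) ≤ X := (le_max_right _ _).trans hX
  have hX0 : 0 < X := by linarith
  have hX1 : 1 ≤ X := by linarith
  set T : ℝ := (Y / 2) ^ lam with hT
  have hT0 : 0 < T := Real.rpow_pos_of_pos (by linarith) _
  have hThalf : 1 / 2 ≤ T := by
    calc (1 / 2 : ℝ) = (1 / 2 : ℝ) ^ (1 : ℝ) := (Real.rpow_one _).symm
      _ ≤ (1 / 2 : ℝ) ^ lam :=
          Real.rpow_le_rpow_of_exponent_ge (by norm_num) (by norm_num) (by linarith)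
      _ ≤ T := Real.rpow_le_rpow (by norm_num) (by linarith) hl0.le
  set V : ℝ := T * X ^ η with hV
  have hV0 : 0 < V := by positivity
  have hV1 : 1 ≤ V := by
    rw [hV]; nlinarith
  set P₀ : ℝ := X ^ (3 - 6 * lam - κ) with hP₀
  have hP0 : 0 < P₀ := by positivity
  have hP1 : 1 ≤ P₀ := Real.one_le_rpow hX1 (by rw [hκ]; linarith)
  -- the sets of moduli
  set N1 : Finset ℕ := (Icc 1 ⌊T ^ 2⌋₊).filter (fun n => V < n ∧ n.Coprime 6) with hN1
  set N2 : Finset ℕ := (Icc 1 ⌊P₀⌋₊).filter (fun n => V < n ∧ n.Coprime 6 ∧ n.Prime) with hN2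
  set F1 := F.filter (fun x => ∃ n ∈ N1, Cn n x.1 x.2) with hF1
  set F2 := F.filter (fun x => ∃ n ∈ N2, Cn n x.1 x.2) with hF2
  set F3 := F.filter (fun x => ∃ p : ℕ, P₀ ≤ p ∧ (p : ℤ) ^ 2 ∣ Dd x.1 x.2) with hF3
  have hcov : F ⊆ F1 ∪ F2 ∪ F3 := by
    intro x hx
    rw [Finset.mem_union, Finset.mem_union, hF1, hF2, hF3, Finset.mem_filter, Finset.mem_filter,
      Finset.mem_filter]
    obtain ⟨-, -, -, -, -, n, hn1, hn2, hn3, hn4⟩ := hF x hx
    have hn2' : 2 ≤ n := by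
      have h5 : (1 : ℝ) < n := lt_of_le_of_lt hV1 hn1
      have h6 : 1 < n := by exact_mod_cast h5
      exact h6
    rcases prime_or n T hT0 hn2' hn3 with hpr | hle
    · by_cases hnP : (n : ℝ) ≤ P₀
      · left; right
        refine ⟨hx, n, ?_, hn4⟩
        rw [hN2, Finset.mem_filter, Finset.mem_Icc]
        exact ⟨⟨by omega, Nat.le_floor hnP⟩, hn1, hn2, hpr⟩
      · right
        push Not at hnP
        refine ⟨hx, n, hnP.le, ?_⟩
        have h7 := hn4 n (Nat.mem_primeFactors.mpr ⟨hpr, dvd_rfl, by omega⟩)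
        refine dvd_trans (pow_dvd_pow _ ?_) h7
        rw [Nat.Prime.factorization_self hpr]
        have h5 : ¬ n < 5 := by
          intro h5
          have : n = 2 ∨ n = 3 ∨ n = 4 := by omega
          rcases this with h | h | h <;> subst h <;> revert hn2 <;> decide
        unfold fe
        rw [if_neg h5]
        split_ifs <;> norm_num
    · left; left
      refine ⟨hx, n, ?_, hn4⟩
      rw [hN1, Finset.mem_filter, Finset.mem_Icc]
      exact ⟨⟨by omega, Nat.le_floor hle⟩, hn1, hn2⟩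
  have hmain := main_term lam η θ X Y hl0 hl1 hη hθ0 (by linarith) (by linarith) hX1 hY hYu
  rw [← hT, ← hV] at hmain
  have hTsq := T_sq lam X Y hl0 hl1 hX1 hY hYu
  rw [← hT] at hTsq
  have hXc1 : X ^ (5 - 6 * lam - η / 4) ≤ X ^ (5 - 6 * lam - c₀) :=
    Real.rpow_le_rpow_of_exponent_le hX1 (by linarith)
  have hXc2 : X ^ (5 - 6 * lam - κ) ≤ X ^ (5 - 6 * lam - c₀) :=
    Real.rpow_le_rpow_of_exponent_le hX1 (by linarith)
  set Z : ℝ := X ^ (5 - 6 * lam - c₀) with hZ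
  have hZ0 : 0 < Z := by positivity
  have hm' : Y ^ (5 / 6 : ℝ) * (K * V ^ (θ - 1)) ≤ K * 62 * Z := by
    calc Y ^ (5 / 6 : ℝ) * (K * V ^ (θ - 1)) = K * (Y ^ (5 / 6 : ℝ) * V ^ (θ - 1)) := by ring
      _ ≤ K * (62 * Z) := by
          apply mul_le_mul_of_nonneg_left _ hK.le
          exact hmain.trans (mul_le_mul_of_nonneg_left hXc1 (by norm_num))
      _ = _ := by ring
  -- the first part
  have hb1 : (F1.card : ℝ) ≤ C * (K * 62 * Z + Co * 256 * Z) := by
    have h := pera_sum C K θ hC hp htail X Y V (Co * (T ^ 2) ^ δ) hX1 hY hV0 N1 (by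
      intro n hn
      rw [hN1, Finset.mem_filter, Finset.mem_Icc] at hn
      refine ⟨hn.2.1, hn.2.2, (hom n hn.1.1).trans ?_⟩
      apply mul_le_mul_of_nonneg_left _ hCo.le
      apply Real.rpow_le_rpow (by positivity) _ hδ0.le
      exact (Nat.le_floor_iff (by positivity)).mp hn.1.2) F1 (by
      intro x hx
      rw [hF1, Finset.mem_filter] at hx
      obtain ⟨h5, h6, h7, -, h8, -⟩ := hF x hx.1
      exact ⟨h5, h6, h7, h8, hx.2⟩)
    refine h.trans (mul_le_mul_of_nonneg_left ?_ hC.le)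
    apply add_le_add hm'
    have hNc : (N1.card : ℝ) ≤ T ^ 2 := by
      calc (N1.card : ℝ) ≤ ((Icc 1 ⌊T ^ 2⌋₊).card : ℝ) := by
            exact_mod_cast Finset.card_filter_le _ _
        _ = (⌊T ^ 2⌋₊ : ℝ) := by rw [Nat.card_Icc]; norm_num
        _ ≤ T ^ 2 := Nat.floor_le (by positivity)
    have hTd : (T ^ 2) ^ δ ≤ 16 * X ^ (2 * δ) := by
      have h16 : T ^ 2 ≤ 16 * X ^ 2 := by
        refine hTsq.trans (mul_le_mul_of_nonneg_left ?_ (by norm_num))
        rw [← Real.rpow_natCast X 2]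
        apply Real.rpow_le_rpow_of_exponent_le hX1
        push_cast
        linarith
      calc (T ^ 2) ^ δ ≤ (16 * X ^ 2) ^ δ := Real.rpow_le_rpow (by positivity) h16 hδ0.le
        _ = 16 ^ δ * X ^ (2 * δ) := by
            rw [Real.mul_rpow (by norm_num) (by positivity), ← Real.rpow_natCast X 2,
              ← Real.rpow_mul hX0.le]
            norm_num
        _ ≤ 16 * X ^ (2 * δ) := by
            apply mul_le_mul_of_nonneg_right _ (by positivity)
            calc (16 : ℝ) ^ δ ≤ 16 ^ (1 : ℝ) :=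
                  Real.rpow_le_rpow_of_exponent_le (by norm_num) (by linarith)
              _ = 16 := Real.rpow_one 16
    calc X ^ 2 * (Co * (T ^ 2) ^ δ * N1.card)
        ≤ X ^ 2 * (Co * (16 * X ^ (2 * δ)) * (16 * X ^ (12 * lam))) := by
          apply mul_le_mul_of_nonneg_left _ (by positivity)
          apply mul_le_mul _ (hNc.trans hTsq) (by positivity) (by positivity)
          exact mul_le_mul_of_nonneg_left hTd hCo.le
      _ = Co * 256 * X ^ (2 + 2 * δ + 12 * lam) := by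
          rw [Real.rpow_add hX0, Real.rpow_add hX0, Real.rpow_ofNat]
          ring
      _ ≤ Co * 256 * Z := by
          apply mul_le_mul_of_nonneg_left _ (by positivity)
          apply Real.rpow_le_rpow_of_exponent_le hX1
          linarith
  -- the second part
  have hb2 : (F2.card : ℝ) ≤ C * (K * 62 * Z + 6 * Z) := by
    have h := pera_sum C K θ hC hp htail X Y V 6 hX1 hY hV0 N2 (by
      intro n hn
      rw [hN2, Finset.mem_filter, Finset.mem_Icc] at hn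
      refine ⟨hn.2.1, hn.2.2.1, ?_⟩
      rw [Nat.Prime.primeFactors hn.2.2.2, Finset.card_singleton, pow_one]) F2 (by
      intro x hx
      rw [hF2, Finset.mem_filter] at hx
      obtain ⟨h5, h6, h7, -, h8, -⟩ := hF x hx.1
      exact ⟨h5, h6, h7, h8, hx.2⟩)
    refine h.trans (mul_le_mul_of_nonneg_left ?_ hC.le)
    apply add_le_add hm'
    have hNc : (N2.card : ℝ) ≤ P₀ := by
      calc (N2.card : ℝ) ≤ ((Icc 1 ⌊P₀⌋₊).card : ℝ) := by
            exact_mod_cast Finset.card_filter_le _ _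
        _ = (⌊P₀⌋₊ : ℝ) := by rw [Nat.card_Icc]; norm_num
        _ ≤ P₀ := Nat.floor_le (by positivity)
    calc X ^ 2 * (6 * N2.card) ≤ X ^ 2 * (6 * P₀) := by
          apply mul_le_mul_of_nonneg_left _ (by positivity)
          linarith
      _ = 6 * X ^ (5 - 6 * lam - κ) := by
          have e : (5 - 6 * lam - κ : ℝ) = 2 + (3 - 6 * lam - κ) := by ring
          rw [e, Real.rpow_add hX0, Real.rpow_ofNat, hP₀]
          ring
      _ ≤ 6 * Z := mul_le_mul_of_nonneg_left hXc2 (by norm_num)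
  -- the third part
  have hb3 : (F3.card : ℝ) ≤ CL * Z := by
    have h := hlp X P₀ hX1 hP1 F3 (by
      intro x hx
      rw [hF3, Finset.mem_filter] at hx
      obtain ⟨h5, h6, h7, h8, -, -⟩ := hF x hx.1
      exact ⟨h5, h7, h8, h6.1, hx.2⟩)
    refine h.trans ?_
    have e : X ^ (8 + κ) / P₀ ^ 2 = X ^ (5 - 6 * lam - κ) := by
      rw [hP₀, ← Real.rpow_natCast (X ^ (3 - 6 * lam - κ)) 2, ← Real.rpow_mul hX0.le,
        ← Real.rpow_sub hX0]
      congr 1
      push_cast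
      rw [hκ]; ring
    rw [mul_div_assoc, e]
    exact mul_le_mul_of_nonneg_left hXc2 hCL.le
  have hcard : (F.card : ℝ) ≤ F1.card + F2.card + F3.card := by
    have h5 : F.card ≤ F1.card + F2.card + F3.card := by
      refine (Finset.card_le_card hcov).trans ?_
      refine (Finset.card_union_le _ _).trans ?_
      exact Nat.add_le_add_right (Finset.card_union_le _ _) _
    exact_mod_cast h5
  calc (F.card : ℝ) ≤ Kt * Z := by
        rw [hKt]
        linarith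
    _ ≤ X ^ c₀ * Z := mul_le_mul_of_nonneg_right hXa' hZ0.le
    _ = X ^ (5 - 6 * lam) := by
        rw [hZ, ← Real.rpow_add hX0]
        congr 1
        ring

end Pool.Agent.N92.SZ
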