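import Pool.Agent.N657.QR.Stm

/-!
# Gaussian domination for bond fields (task GD0 of project QR)
-/

namespace Pool.Agent.N92.QR

open Pool.Agent.N657.QR

section comb

variable {d L : ℕ} [NeZero L]

theorem val_neg (t : ZMod L) : (-1 - t).val + t.val + 1 = L := by
  have h1 : (-1 - t).val < L := ZMod.val_lt _
  have h2 : t.val < L := ZMod.val_lt _
  have h3 : (((-1 - t).val + t.val + 1 : ℕ) : ZMod L) = 0 := by
    push_cast
    rw [ZMod.natCast_zmod_val, ZMod.natCast_zmod_val]
    ring
  have h4 := (ZMod.natCast_eq_zero_iff _ L).1 h3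
  obtain ⟨k, hk⟩ := h4
  have hk1 : k = 1 := by
    rcases Nat.lt_or_ge k 1 with h | h
    · have : k = 0 := by omega
      rw [this] at hk
      omega
    · rcases Nat.lt_or_ge 1 k with h' | h'
      · have : L * 2 ≤ L * k := Nat.mul_le_mul_left _ h'
        omega
      · omega
  rw [hk1] at hk
  omega

theorem rho_rho (i : Fin d) (c : ZMod L) (x : Fin d → ZMod L) : rho i c (rho i c x) = x := by
  unfold rho
  funext j
  by_cases hj : j = i
  · subst hj
    simp
  · simp [Function.update_of_ne hj]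

theorem rho_inj (i : Fin d) (c : ZMod L) : Function.Injective (rho i c) := by
  intro x y h
  rw [← rho_rho i c x, h, rho_rho]

theorem side_rho (hL : Even L) (i : Fin d) (c : ZMod L) (x : Fin d → ZMod L) :
    side i c (rho i c x) = !side i c x := by
  have h1 := val_neg (x i - c)
  have h2 : rho i c x i - c = -1 - (x i - c) := by
    unfold rho
    simp
    ring
  obtain ⟨m, hm⟩ := hL
  unfold side
  rw [h2]
  by_cases h : (x i - c).val < L / 2
  · have h3 : ¬ (-1 - (x i - c)).val < L / 2 := by omega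
    simp [h, h3]
  · have h3 : (-1 - (x i - c)).val < L / 2 := by omega
    simp [h, h3]

theorem rho_shift (i : Fin d) (c : ZMod L) (x : Fin d → ZMod L) :
    rho i c (x + ee i) + ee i = rho i c x := by
  unfold rho ee
  funext j
  by_cases hj : j = i
  · subst hj
    simp
    ring
  · simp [Function.update_of_ne hj, Pi.single_eq_of_ne hj]

/-- The number of nonzero bonds. -/
noncomputable def z (h : (Fin d → ZMod L) → Fin d → ℝ) : ℕ :=
  ((Finset.univ : Finset ((Fin d → ZMod L) × Fin d)).filter fun p => h p.1 p.2 ≠ 0).card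

/-- Nonzero bonds inside one half. -/
noncomputable def Ns (i : Fin d) (c : ZMod L) (s : Bool) (h : (Fin d → ZMod L) → Fin d → ℝ) :
    Finset ((Fin d → ZMod L) × Fin d) :=
  (Finset.univ : Finset ((Fin d → ZMod L) × Fin d)).filter fun p =>
    h p.1 p.2 ≠ 0 ∧ side i c p.1 = s ∧ (p.2 = i → side i c (p.1 + ee i) = s)

theorem z_rf_le (hL : Even L) (i : Fin d) (c : ZMod L) (s : Bool)
    (h : (Fin d → ZMod L) → Fin d → ℝ) : z (rf i c s h) ≤ 2 * (Ns i c s h).card := by
  classical
  set A := (Finset.univ : Finset ((Fin d → ZMod L) × Fin d)).filter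
    fun p => rf i c s h p.1 p.2 ≠ 0 with hA
  have hsplit : A = A.filter (fun p => side i c p.1 = s) ∪
      A.filter (fun p => ¬ side i c p.1 = s) := (Finset.filter_union_filter_not_eq _ _).symm
  have h1 : (A.filter (fun p => side i c p.1 = s)).card ≤ (Ns i c s h).card := by
    apply Finset.card_le_card
    intro p hp
    rw [Finset.mem_filter, hA, Finset.mem_filter] at hp
    obtain ⟨⟨-, hp1⟩, hp2⟩ := hp
    unfold Ns
    rw [Finset.mem_filter]
    refine ⟨Finset.mem_univ _, ?_⟩
    by_cases hj : p.2 = i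
    · by_cases hs : side i c (p.1 + ee i) = s
      · have : rf i c s h p.1 p.2 = h p.1 p.2 := by
          unfold rf
          rw [if_pos hj, if_pos ⟨hp2, hs⟩, hj]
        rw [this] at hp1
        exact ⟨hp1, hp2, fun _ => hs⟩
      · exfalso
        apply hp1
        unfold rf
        rw [if_pos hj, if_neg (fun hh => hs hh.2), if_neg (fun hh => hh.1 hp2)]
    · have : rf i c s h p.1 p.2 = h p.1 p.2 := by
        unfold rf
        rw [if_neg hj, if_pos hp2]
      rw [this] at hp1
      exact ⟨hp1, hp2, fun hh => absurd hh hj⟩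
  have h2 : (A.filter (fun p => ¬ side i c p.1 = s)).card ≤ (Ns i c s h).card := by
    apply Finset.card_le_card_of_injOn
      (fun p => (if p.2 = i then rho i c (p.1 + ee i) else rho i c p.1, p.2))
    · intro p hp
      have hp : p ∈ A.filter (fun p => ¬ side i c p.1 = s) := hp
      rw [Finset.mem_filter, hA, Finset.mem_filter] at hp
      obtain ⟨⟨-, hp1⟩, hp2⟩ := hp
      show _ ∈ Ns i c s h
      unfold Ns
      rw [Finset.mem_filter]
      refine ⟨Finset.mem_univ _, ?_⟩
      by_cases hj : p.2 = i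
      · by_cases hs : side i c (p.1 + ee i) = s
        · exfalso
          apply hp1
          unfold rf
          rw [if_pos hj, if_neg (fun hh => hp2 hh.1), if_neg (fun hh => hh.2 hs)]
        · have : rf i c s h p.1 p.2 = -h (rho i c (p.1 + ee i)) i := by
            unfold rf
            rw [if_pos hj, if_neg (fun hh => hp2 hh.1), if_pos ⟨hp2, hs⟩]
          rw [this] at hp1
          simp only [hj, if_true]
          refine ⟨fun hh => hp1 (by rw [hh, neg_zero]), ?_, fun _ => ?_⟩
          · rw [side_rho hL]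
            revert hs
            cases side i c (p.1 + ee i) <;> cases s <;> simp
          · rw [rho_shift, side_rho hL]
            revert hp2
            cases side i c p.1 <;> cases s <;> simp
      · have : rf i c s h p.1 p.2 = h (rho i c p.1) p.2 := by
          unfold rf
          rw [if_neg hj, if_neg hp2]
        rw [this] at hp1
        simp only [hj, if_false]
        refine ⟨hp1, ?_, fun hh => hh.elim⟩
        rw [side_rho hL]
        revert hp2
        cases side i c p.1 <;> cases s <;> simp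
    · intro p hp q hq hpq
      simp only [Prod.mk.injEq] at hpq
      obtain ⟨h1, h2⟩ := hpq
      rw [h2] at h1
      by_cases hj : q.2 = i
      · rw [if_pos hj, if_pos hj] at h1
        have := rho_inj i c h1
        exact Prod.ext (add_right_cancel this) h2
      · rw [if_neg hj, if_neg hj] at h1
        exact Prod.ext (rho_inj i c h1) h2
  have h3 : z (rf i c s h) = A.card := by
    unfold z
    rw [hA]
  rw [h3, hsplit]
  refine (Finset.card_union_le _ _).trans ?_
  omega

theorem z_lt (hL : Even L) (i : Fin d) (h : (Fin d → ZMod L) → Fin d → ℝ)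
    (x0 : Fin d → ZMod L) (hx : h x0 i ≠ 0) :
    z (rf i (x0 i + 1) true h) + z (rf i (x0 i + 1) false h) < 2 * z h := by
  classical
  set c := x0 i + 1 with hc
  have hL0 : 0 < L := Nat.pos_of_ne_zero (NeZero.ne L)
  have hs0 : side i c x0 = false := by
    have h1 := val_neg (0 : ZMod L)
    have h2 : x0 i - c = -1 - 0 := by rw [hc]; ring
    unfold side
    rw [h2]
    obtain ⟨m, hm⟩ := hL
    have : ¬ ((-1 - 0 : ZMod L)).val < L / 2 := by
      rw [ZMod.val_zero] at h1
      omega
    simp only [this, decide_false]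
  have hs1 : side i c (x0 + ee i) = true := by
    have h2 : (x0 + (ee i : Fin d → ZMod L)) i - c = 0 := by
      rw [hc]
      unfold ee
      simp
    unfold side
    rw [h2, ZMod.val_zero]
    obtain ⟨m, hm⟩ := hL
    have : 0 < L / 2 := by omega
    simp only [this, decide_true]
  have h1 := z_rf_le hL i c true h
  have h2 := z_rf_le hL i c false h
  have hdis : Disjoint (Ns i c true h) (Ns i c false h) := by
    rw [Finset.disjoint_left]
    intro p hp hq
    unfold Ns at hp hq
    rw [Finset.mem_filter] at hp hq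
    have := hp.2.2.1.symm.trans hq.2.2.1
    exact absurd this (by decide)
  have hsub : insert (x0, i) (Ns i c true h ∪ Ns i c false h) ⊆
      (Finset.univ : Finset ((Fin d → ZMod L) × Fin d)).filter fun p => h p.1 p.2 ≠ 0 := by
    intro p hp
    rw [Finset.mem_insert, Finset.mem_union] at hp
    rw [Finset.mem_filter]
    refine ⟨Finset.mem_univ _, ?_⟩
    rcases hp with hp | hp | hp
    · rw [hp]
      exact hx
    · unfold Ns at hp
      rw [Finset.mem_filter] at hp
      exact hp.2.1
    · unfold Ns at hp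
      rw [Finset.mem_filter] at hp
      exact hp.2.1
  have hnot : (x0, i) ∉ Ns i c true h ∪ Ns i c false h := by
    intro hp
    rw [Finset.mem_union] at hp
    rcases hp with hp | hp
    · unfold Ns at hp
      rw [Finset.mem_filter] at hp
      have := hp.2.2.1
      simp only at this
      rw [hs0] at this
      exact absurd this (by decide)
    · unfold Ns at hp
      rw [Finset.mem_filter] at hp
      have := hp.2.2.2 rfl
      simp only at this
      rw [hs1] at this
      exact absurd this (by decide)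
  have h3 := Finset.card_le_card hsub
  rw [Finset.card_insert_of_notMem hnot, Finset.card_union_of_disjoint hdis] at h3
  unfold z at h1 h2 ⊢
  omega

end comb

section energy

variable {d L : ℕ} [NeZero L]

/-- Lower bounds for the energy. -/
def GS (U J : ℝ) (h : (Fin d → ZMod L) → Fin d → ℝ) : Set ℝ :=
  {E | ∀ ψ, fs ψ → E * nr ψ ≤ GK U J h ψ}

theorem nr_nonneg {V : Type} [Fintype V] [DecidableEq V] (ψ : (V → ℤ) → ℝ) : 0 ≤ nr ψ :=
  tsum_nonneg fun _ => sq_nonneg _

theorem GS_nonempty (hB : S_BAS) (U J : ℝ) (hU : 0 ≤ U) (hJ : 0 ≤ J)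
    (h : (Fin d → ZMod L) → Fin d → ℝ) : (GS U J h).Nonempty := by
  refine ⟨-(J * (∑ _x : Fin d → ZMod L, ∑ _i : Fin d, (1 : ℝ))
    + J * (∑ x, ∑ i, |h x i| * 2)), ?_⟩
  intro ψ hψ
  have hs := (hB.fsFE ψ hψ).1
  have hn := nr_nonneg ψ
  have h1 : 0 ≤ ∑' n, Pool.Agent.N657.QR.sq n * ψ n ^ 2 :=
    tsum_nonneg fun n => mul_nonneg (Finset.sum_nonneg fun _ _ => sq_nonneg _) (sq_nonneg _)
  have h2 : (∑ x : Fin d → ZMod L, ∑ i : Fin d, cr x (x + ee i) ψ) ≤
      (∑ _x : Fin d → ZMod L, ∑ _i : Fin d, (1 : ℝ)) * nr ψ := by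
    rw [Finset.sum_mul]
    refine Finset.sum_le_sum fun x _ => ?_
    rw [Finset.sum_mul]
    refine Finset.sum_le_sum fun i _ => ?_
    rw [one_mul]
    exact (le_abs_self _).trans (hB.crle x (x + ee i) ψ hs)
  have h3 : (∑ x : Fin d → ZMod L, ∑ i : Fin d, h x i * (xx x ψ - xx (x + ee i) ψ)) ≤
      (∑ x, ∑ i, |h x i| * 2) * nr ψ := by
    rw [Finset.sum_mul]
    refine Finset.sum_le_sum fun x _ => ?_
    rw [Finset.sum_mul]
    refine Finset.sum_le_sum fun i _ => ?_
    have ha := abs_le.1 (hB.xxle x ψ hs)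
    have hb := abs_le.1 (hB.xxle (x + ee i) ψ hs)
    have hc : |xx x ψ - xx (x + ee i) ψ| ≤ 2 * nr ψ := by
      rw [abs_le]
      constructor <;> linarith [ha.1, ha.2, hb.1, hb.2]
    calc h x i * (xx x ψ - xx (x + ee i) ψ) ≤ |h x i * (xx x ψ - xx (x + ee i) ψ)| :=
          le_abs_self _
      _ = |h x i| * |xx x ψ - xx (x + ee i) ψ| := abs_mul _ _
      _ ≤ |h x i| * (2 * nr ψ) := mul_le_mul_of_nonneg_left hc (abs_nonneg _)
      _ = |h x i| * 2 * nr ψ := by ring
  have h4 : 0 ≤ (∑ x : Fin d → ZMod L, ∑ i : Fin d, h x i ^ 2) :=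
    Finset.sum_nonneg fun x _ => Finset.sum_nonneg fun i _ => sq_nonneg _
  have h5 := mul_le_mul_of_nonneg_left h2 hJ
  have h6 := mul_le_mul_of_nonneg_left h3 hJ
  have h7 := mul_nonneg hU h1
  have h8 : 0 ≤ J / 2 * (∑ x : Fin d → ZMod L, ∑ i : Fin d, h x i ^ 2) * nr ψ :=
    mul_nonneg (mul_nonneg (by linarith) h4) hn
  unfold GK
  nlinarith [h5, h6, h7, h8]

theorem GS_bdd (U J : ℝ) (h : (Fin d → ZMod L) → Fin d → ℝ) : BddAbove (GS U J h) := by
  classical
  set ψ0 : ((Fin d → ZMod L) → ℤ) → ℝ := fun n => if n = 0 then 1 else 0 with hψ0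
  have hfs : fs ψ0 := by
    refine (Set.finite_singleton (0 : (Fin d → ZMod L) → ℤ)).subset ?_
    intro n hn
    rw [Function.mem_support, hψ0] at hn
    by_contra hne
    exact hn (if_neg hne)
  have hnr : nr ψ0 = 1 := by
    unfold nr
    rw [tsum_eq_single (0 : (Fin d → ZMod L) → ℤ)]
    · simp [hψ0]
    · intro n hn
      simp [hψ0, hn]
  refine ⟨GK U J h ψ0, ?_⟩
  intro E hE
  have := hE ψ0 hfs
  rw [hnr, mul_one] at this
  exact this

/-- The best lower bound. -/
noncomputable def g (U J : ℝ) (h : (Fin d → ZMod L) → Fin d → ℝ) : ℝ := sSup (GS U J h)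

theorem g_mem (hB : S_BAS) (U J : ℝ) (hU : 0 ≤ U) (hJ : 0 ≤ J)
    (h : (Fin d → ZMod L) → Fin d → ℝ) : g U J h ∈ GS U J h := by
  intro ψ hψ
  have hne := GS_nonempty hB U J hU hJ h
  rcases (nr_nonneg ψ).eq_or_lt with h0 | h0
  · obtain ⟨E, hE⟩ := hne
    have := hE ψ hψ
    rw [← h0, mul_zero] at this ⊢
    exact this
  · rw [← le_div_iff₀ h0]
    refine csSup_le hne fun E hE => ?_
    rw [le_div_iff₀ h0]
    exact hE ψ hψ

theorem le_g (U J : ℝ) (h : (Fin d → ZMod L) → Fin d → ℝ) {E : ℝ} (hE : E ∈ GS U J h) :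
    E ≤ g U J h := le_csSup (GS_bdd U J h) hE

theorem GK_zero (U J : ℝ) (ψ : ((Fin d → ZMod L) → ℤ) → ℝ) :
    GK U J (fun _ _ => 0) ψ =
      FF (U • (1 : Matrix (Fin d → ZMod L) (Fin d → ZMod L) ℝ)) (nnw J) 0 ψ := by
  classical
  have h1 : po (U • (1 : Matrix (Fin d → ZMod L) (Fin d → ZMod L) ℝ)) 0 ψ
      = U * (∑' n, Pool.Agent.N657.QR.sq n * ψ n ^ 2) := by
    unfold po
    rw [← tsum_mul_left]
    refine tsum_congr fun n => ?_
    have : pot (U • (1 : Matrix (Fin d → ZMod L) (Fin d → ZMod L) ℝ)) 0 n =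
        U * Pool.Agent.N657.QR.sq n := by
      unfold pot Pool.Agent.N657.QR.sq
      rw [Finset.mul_sum]
      refine Finset.sum_congr rfl fun x _ => ?_
      rw [Finset.sum_eq_single x]
      · rw [Matrix.smul_apply, Matrix.one_apply_eq]
        simp only [Pi.zero_apply, sub_zero, smul_eq_mul, mul_one]
        ring
      · intro y _ hy
        rw [Matrix.smul_apply, Matrix.one_apply_ne (Ne.symm hy)]
        simp
      · intro hx
        exact absurd (Finset.mem_univ _) hx
    rw [this]
    ring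
  have h2 : (∑ x, ∑ y, nnw J x y * cr x y ψ) =
      J * (∑ x : Fin d → ZMod L, ∑ i : Fin d, cr x (x + ee i) ψ) := by
    rw [Finset.mul_sum]
    refine Finset.sum_congr rfl fun x _ => ?_
    unfold nnw
    simp_rw [Finset.sum_mul]
    rw [Finset.sum_comm, Finset.mul_sum]
    refine Finset.sum_congr rfl fun i _ => ?_
    rw [Finset.sum_eq_single (x + ee i)]
    · simp
    · intro y _ hy
      simp [hy]
    · intro hx
      exact absurd (Finset.mem_univ _) hx
  unfold GK FF
  rw [h1, h2]
  simp

end energy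

/-- Gaussian domination for bond fields. -/
theorem main (hB : S_BAS) (hR : S_REFL) (hD : S_DIA) : S_GD0 := by
  classical
  intro d L _ U J h hL hU hJ ψ hψ
  -- the finite set of fields
  set T : Set ℝ := {0} ∪ (Set.range (fun p : (Fin d → ZMod L) × Fin d => h p.1 p.2) ∪
    Set.range (fun p : (Fin d → ZMod L) × Fin d => -h p.1 p.2)) with hT
  have hTfin : T.Finite :=
    (Set.finite_singleton 0).union ((Set.finite_range _).union (Set.finite_range _))
  have hT0 : (0 : ℝ) ∈ T := Or.inl rfl
  have hTneg : ∀ t ∈ T, -t ∈ T := by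
    intro t ht
    rcases ht with ht | ⟨p, hp⟩ | ⟨p, hp⟩
    · rw [ht, neg_zero]
      exact hT0
    · exact Or.inr (Or.inr ⟨p, by simp only at hp ⊢; rw [hp]⟩)
    · refine Or.inr (Or.inl ⟨p, ?_⟩)
      simp only at hp ⊢
      rw [← hp, neg_neg]
  set FT : Set ((Fin d → ZMod L) → Fin d → ℝ) := {h' | ∀ x, h' x ∈ {v | ∀ i, v i ∈ T}} with hFT
  have hFTfin : FT.Finite :=
    Set.Finite.pi' fun _ => Set.Finite.pi' fun _ => hTfin
  have hhFT : h ∈ FT := fun x i => Or.inr (Or.inl ⟨(x, i), rfl⟩)
  have hrf : ∀ (i : Fin d) (c : ZMod L) (s : Bool), ∀ h' ∈ FT, rf i c s h' ∈ FT := by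
    intro i c s h' hh' x j
    unfold rf
    split_ifs
    · exact hh' x i
    · exact hTneg _ (hh' _ i)
    · exact hT0
    · exact hh' x j
    · exact hh' _ j
  obtain ⟨h1, h1m, h1min⟩ := Set.exists_min_image FT (g U J) hFTfin ⟨h, hhFT⟩
  have hSfin : {h' ∈ FT | g U J h' ≤ g U J h1}.Finite := hFTfin.subset fun _ hx => hx.1
  obtain ⟨h2, h2m, h2min⟩ := Set.exists_min_image {h' ∈ FT | g U J h' ≤ g U J h1} z hSfin
    ⟨h1, h1m, le_refl _⟩
  have hzero : h2 = fun _ _ => 0 := by
    by_contra hne
    have hex : ∃ x i, h2 x i ≠ 0 := by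
      by_contra hh
      push Not at hh
      exact hne (funext fun x => funext fun i => hh x i)
    obtain ⟨x0, i, hx0⟩ := hex
    have hlt := z_lt hL i h2 x0 hx0
    set c := x0 i + 1 with hc
    have ht := hrf i c true h2 h2m.1
    have hf := hrf i c false h2 h2m.1
    have e1 := h1min _ ht
    have e2 := h1min _ hf
    have e3 : (g U J (rf i c true h2) + g U J (rf i c false h2)) / 2 ≤ g U J h2 :=
      le_g U J h2 (hR d L U J h2 i c _ _ hL hJ (g_mem hB U J hU hJ _) (g_mem hB U J hU hJ _))
    have e4 := h2m.2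
    have e5 := h2min _ ⟨ht, by linarith⟩
    have e6 := h2min _ ⟨hf, by linarith⟩
    omega
  have hnnw : ∀ x y : Fin d → ZMod L, 0 ≤ nnw J x y := by
    intro x y
    unfold nnw
    refine Finset.sum_nonneg fun i _ => ?_
    split_ifs
    · exact hJ
    · exact le_refl _
  have hpsd : (U • (1 : Matrix (Fin d → ZMod L) (Fin d → ZMod L) ℝ)).PosSemidef :=
    Matrix.PosSemidef.one.smul hU
  have hen : en (U • (1 : Matrix (Fin d → ZMod L) (Fin d → ZMod L) ℝ)) (nnw J) 0 0 ∈
      GS U J (fun (_ : Fin d → ZMod L) (_ : Fin d) => (0 : ℝ)) := by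
    intro φ hφ
    rw [GK_zero]
    exact (hD _ _ hpsd hnnw).2 φ hφ
  have e1 := le_g U J _ hen
  have e2 : g U J h2 ≤ g U J h := h2m.2.trans (h1min h hhFT)
  rw [hzero] at e2
  exact (mul_le_mul_of_nonneg_right (e1.trans e2) (nr_nonneg ψ)).trans
    (g_mem hB U J hU hJ h ψ hψ)

end Pool.Agent.N92.QR
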