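import Pool.Agent.N906.SZ.Stm

set_option autoImplicit false

namespace Pool.Agent.N92.SZ

open Finset Filter Topology Pool.Agent.N906.SZ

/-- the logarithmic factor is absorbed -/
theorem up_asym (A μ c : ℝ) (hμ : 0 < μ) (hc : 0 < c) :
    ∀ᶠ X : ℝ in atTop, A + 60 * Real.log X ≤
      Real.exp (c * √(μ * Real.log X / Real.log (Real.log X))) := by
  have key : ∀ᶠ L : ℝ in atTop, A + 60 * L ≤ Real.exp (c * √(μ * L / Real.log L)) := by
    have h1 : ∀ᶠ L : ℝ in atTop, ‖Real.log L‖ ≤ 1 * ‖L ^ (1 / 2 : ℝ)‖ :=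
      (isLittleO_log_rpow_atTop (by norm_num : (0 : ℝ) < 1 / 2)).bound one_pos
    have h2 : ∀ᶠ t : ℝ in atTop, ‖t ^ 4‖ ≤ (1 / (|A| + 60)) * ‖Real.exp (c * √μ * t)‖ :=
      (isLittleO_pow_exp_pos_mul_atTop (k := 4) (b := c * √μ) (by positivity)).bound
        (by positivity)
    have h3 : Tendsto (fun L : ℝ => L ^ (1 / 4 : ℝ)) atTop atTop :=
      tendsto_rpow_atTop (by norm_num)
    filter_upwards [h1, h3.eventually h2, eventually_ge_atTop (3 : ℝ)] with L h1 h2 hL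
    have hL0 : 0 < L := by linarith
    have hlog : 0 < Real.log L := Real.log_pos (by linarith)
    have hl : Real.log L ≤ L ^ (1 / 2 : ℝ) := by
      rw [one_mul, Real.norm_of_nonneg hlog.le, Real.norm_of_nonneg (by positivity)] at h1
      exact h1
    have e4 : (L ^ (1 / 4 : ℝ)) ^ 4 = L := by
      rw [← Real.rpow_natCast (L ^ (1 / 4 : ℝ)) 4, ← Real.rpow_mul hL0.le]
      norm_num
    have e2 : (L ^ (1 / 4 : ℝ)) ^ 2 = L ^ (1 / 2 : ℝ) := by
      rw [← Real.rpow_natCast (L ^ (1 / 4 : ℝ)) 2, ← Real.rpow_mul hL0.le]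
      norm_num
    have e5 : L ^ (1 / 2 : ℝ) * L ^ (1 / 2 : ℝ) = L := by
      rw [← Real.rpow_add hL0]; norm_num
    have hs : √μ * L ^ (1 / 4 : ℝ) ≤ √(μ * L / Real.log L) := by
      apply Real.le_sqrt_of_sq_le
      rw [mul_pow, Real.sq_sqrt hμ.le, e2, le_div_iff₀ hlog]
      calc μ * L ^ (1 / 2 : ℝ) * Real.log L ≤ μ * L ^ (1 / 2 : ℝ) * L ^ (1 / 2 : ℝ) := by
            apply mul_le_mul_of_nonneg_left hl (by positivity)
        _ = μ * L := by rw [mul_assoc, e5]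
    rw [e4, Real.norm_of_nonneg hL0.le, Real.norm_of_nonneg (Real.exp_pos _).le] at h2
    calc A + 60 * L ≤ (|A| + 60) * L := by
          nlinarith [le_abs_self A, abs_nonneg A]
      _ ≤ (|A| + 60) * (1 / (|A| + 60) * Real.exp (c * √μ * L ^ (1 / 4 : ℝ))) := by
          apply mul_le_mul_of_nonneg_left h2 (by positivity)
      _ = Real.exp (c * √μ * L ^ (1 / 4 : ℝ)) := by
          field_simp
      _ ≤ _ := by
          apply Real.exp_le_exp.mpr
          rw [mul_assoc]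
          exact mul_le_mul_of_nonneg_left hs hc.le
  exact Real.tendsto_log_atTop.eventually key

/-- the discriminant is bounded by `31 X⁶` -/
theorem D_bound {X : ℝ} {a b : ℤ} (h1 : |(a : ℝ)| ≤ X ^ 2) (h2 : |(b : ℝ)| ≤ X ^ 3) :
    |((Dd a b : ℤ) : ℝ)| ≤ 31 * X ^ 6 := by
  have e : ((Dd a b : ℤ) : ℝ) = 4 * (a : ℝ) ^ 3 - 27 * (b : ℝ) ^ 2 := by
    unfold Dd; push_cast; ring
  rw [e]
  have h3 : |(a : ℝ) ^ 3| ≤ X ^ 6 := by
    rw [abs_pow]
    calc |(a : ℝ)| ^ 3 ≤ (X ^ 2) ^ 3 := pow_le_pow_left₀ (abs_nonneg _) h1 3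
      _ = X ^ 6 := by ring
  have h4 : |(b : ℝ) ^ 2| ≤ X ^ 6 := by
    rw [abs_pow]
    calc |(b : ℝ)| ^ 2 ≤ (X ^ 3) ^ 2 := pow_le_pow_left₀ (abs_nonneg _) h2 2
      _ = X ^ 6 := by ring
  rw [abs_le] at h3 h4 ⊢
  constructor <;> linarith [h3.1, h3.2, h4.1, h4.2]

/-- a divisor `n ≥ T`, minimal -/
theorem min_div (a b : ℤ) (n₀ : ℕ) (h0 : 1 ≤ n₀) (hC : Cn n₀ a b) (T : ℝ) (hT : T ≤ n₀) :
    ∃ n : ℕ, 1 ≤ n ∧ T ≤ n ∧ Cn n a b ∧ ∀ p ∈ n.primeFactors, (n : ℝ) / p < T := by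
  classical
  have hex : ∃ n : ℕ, n ∣ n₀ ∧ T ≤ n := ⟨n₀, dvd_rfl, hT⟩
  obtain ⟨hd, hTn⟩ := Nat.find_spec hex
  set n := Nat.find hex with hn
  have hn1 : 1 ≤ n := Nat.pos_of_dvd_of_pos hd h0
  refine ⟨n, hn1, hTn, ?_, ?_⟩
  · intro p hp
    have hp' : p ∈ n₀.primeFactors := Nat.primeFactors_mono hd (by omega) hp
    apply dvd_trans _ (hC p hp')
    apply pow_dvd_pow
    have := (Nat.factorization_le_iff_dvd (by omega) (by omega)).mpr hd p
    omega
  · intro p hp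
    by_contra hcon
    push Not at hcon
    have hpp := Nat.prime_of_mem_primeFactors hp
    have hpn := Nat.dvd_of_mem_primeFactors hp
    have hcast : ((n / p : ℕ) : ℝ) = (n : ℝ) / p := Nat.cast_div hpn (by
      have := hpp.pos; positivity)
    have hlt : n / p < n := Nat.div_lt_self hn1 hpp.one_lt
    apply Nat.find_min hex hlt
    refine ⟨(Nat.div_dvd_of_dvd hpn).trans hd, ?_⟩
    rw [hcast]; exact hcon

/-- one dyadic block -/
theorem up_block (h1 : S_GAIN) (h3 : S_UPA) (h4 : S_UPB) (lam ε : ℝ) (hl0 : 0 < lam)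
    (hl1 : lam < 1 / 6) (hε : 0 < ε) : ∃ X₀ : ℝ, 3 < X₀ ∧
    ∀ (X Y : ℝ) (F : Finset (ℤ × ℤ)), X₀ ≤ X → X ^ (6 - 36 * lam / 5) ≤ Y → Y ≤ 31 * X ^ 6 →
      (∀ x ∈ F, Mn x.1 x.2 ∧ |(x.1 : ℝ)| ≤ X ^ 2 ∧ |(x.2 : ℝ)| ≤ X ^ 3 ∧
        Y / 2 < |((Dd x.1 x.2 : ℤ) : ℝ)| ∧ |((Dd x.1 x.2 : ℤ) : ℝ)| ≤ Y ∧
        (Nc x.1 x.2 : ℝ) * |((Dd x.1 x.2 : ℤ) : ℝ)| ^ lam ≤ |((Dd x.1 x.2 : ℤ) : ℝ)|) →
      (F.card : ℝ) ≤ 5 * Real.exp ((5 - 6 * lam) * Real.log X +
        (1 + ε) * √(96 * lam * Real.log X / Real.log (Real.log X))) := by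
  classical
  set η : ℝ := 4 / 5 * (1 - 6 * lam) with hη
  have hη0 : 0 < η := by rw [hη]; nlinarith
  obtain ⟨Xa, hXa3, ha⟩ := h3 lam ε hl0 hl1 hε
  obtain ⟨Xb, hXb3, hb⟩ := h4 lam η hl0 hl1 hη0
  have hW3 : ∀ᶠ X : ℝ in atTop, 3 ≤ X ^ η := (tendsto_rpow_atTop hη0).eventually_ge_atTop 3
  obtain ⟨Xc, hXc⟩ := eventually_atTop.mp hW3
  refine ⟨max (max Xa Xb) (max Xc 4), by
    have := le_max_left Xa Xb
    have := le_max_left (max Xa Xb) (max Xc 4)
    linarith, ?_⟩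
  intro X Y F hX hYl hYu hF
  have hXa : Xa ≤ X := ((le_max_left _ _).trans (le_max_left _ _)).trans hX
  have hXb : Xb ≤ X := ((le_max_right _ _).trans (le_max_left _ _)).trans hX
  have hXc' : Xc ≤ X := ((le_max_left _ _).trans (le_max_right _ _)).trans hX
  have hX4 : (4 : ℝ) ≤ X := ((le_max_right _ _).trans (le_max_right _ _)).trans hX
  have hW := hXc X hXc'
  have hX0 : 0 < X := by linarith
  have hX1 : 1 ≤ X := by linarith
  -- Y is large
  have hY24 : X ^ (24 / 5 : ℝ) ≤ Y := by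
    refine le_trans (Real.rpow_le_rpow_of_exponent_le hX1 ?_) hYl
    linarith
  have hY4 : 4 ≤ Y := by
    calc (4 : ℝ) ≤ X := hX4
      _ = X ^ (1 : ℝ) := (Real.rpow_one X).symm
      _ ≤ X ^ (24 / 5 : ℝ) := Real.rpow_le_rpow_of_exponent_le hX1 (by norm_num)
      _ ≤ Y := hY24
  have hY0 : 0 < Y := by linarith
  set T : ℝ := (Y / 2) ^ lam with hT
  have hT1 : 1 ≤ T := Real.one_le_rpow (by linarith) hl0.le
  have hT0 : 0 < T := by linarith
  set W : ℝ := X ^ η with hWd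
  have hW0 : 0 < W := by linarith
  have hR6 : (T * W) ^ 6 ≤ Y := by
    have e1 : T ^ 6 ≤ Y ^ (6 * lam) := by
      rw [hT, ← Real.rpow_natCast ((Y / 2) ^ lam) 6, ← Real.rpow_mul (by linarith)]
      calc (Y / 2) ^ (lam * (6 : ℕ)) ≤ Y ^ (lam * (6 : ℕ)) :=
            Real.rpow_le_rpow (by linarith) (by linarith) (by positivity)
        _ = Y ^ (6 * lam) := by congr 1; push_cast; ring
    have e2 : W ^ 6 ≤ Y ^ (1 - 6 * lam) := by
      calc W ^ 6 = X ^ (24 / 5 * (1 - 6 * lam)) := by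
            rw [hWd, ← Real.rpow_natCast (X ^ η) 6, ← Real.rpow_mul hX0.le]
            congr 1
            push_cast
            rw [hη]; ring
        _ = (X ^ (24 / 5 : ℝ)) ^ (1 - 6 * lam) := by
            rw [← Real.rpow_mul hX0.le]
        _ ≤ Y ^ (1 - 6 * lam) := Real.rpow_le_rpow (by positivity) hY24 (by linarith)
    calc (T * W) ^ 6 = T ^ 6 * W ^ 6 := by ring
      _ ≤ Y ^ (6 * lam) * Y ^ (1 - 6 * lam) := mul_le_mul e1 e2 (by positivity) (by positivity)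
      _ = Y := by
          rw [← Real.rpow_add hY0]
          have : 6 * lam + (1 - 6 * lam) = 1 := by ring
          rw [this, Real.rpow_one]
  have hR1 : 1 ≤ T * W := by nlinarith
  -- the divisor
  have hdiv : ∀ x ∈ F, ∃ n : ℕ, 1 ≤ n ∧ T ≤ n ∧ Cn n x.1 x.2 ∧
      ∀ p ∈ n.primeFactors, (n : ℝ) / p < T := by
    intro x hx
    obtain ⟨hM, -, -, hD1, hD2, hN⟩ := hF x hx
    obtain ⟨n₀, hn₀, hC, hDn⟩ := h1 x.1 x.2 hM.1
    apply min_div x.1 x.2 n₀ hn₀ hC T
    have hDabs : |((Dd x.1 x.2 : ℤ) : ℝ)| = (n₀ : ℝ) * (Nc x.1 x.2 : ℝ) := by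
      rw [← Int.cast_abs, Int.abs_eq_natAbs, hDn]
      push_cast
      ring
    have hNc : 0 < (Nc x.1 x.2 : ℝ) := by
      have h0 : 0 < |((Dd x.1 x.2 : ℤ) : ℝ)| := by linarith
      rw [hDabs] at h0
      by_contra hcon
      push Not at hcon
      have : (n₀ : ℝ) * (Nc x.1 x.2 : ℝ) ≤ 0 := mul_nonpos_of_nonneg_of_nonpos (by positivity) hcon
      linarith
    have h5 : |((Dd x.1 x.2 : ℤ) : ℝ)| ^ lam ≤ n₀ := by
      have h6 : (Nc x.1 x.2 : ℝ) * |((Dd x.1 x.2 : ℤ) : ℝ)| ^ lam ≤ (Nc x.1 x.2 : ℝ) * n₀ := by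
        refine hN.trans (le_of_eq ?_)
        rw [hDabs]; ring
      exact le_of_mul_le_mul_left h6 hNc
    refine le_trans ?_ h5
    exact Real.rpow_le_rpow (by linarith) hD1.le hl0.le
  -- the three parts
  set FA := F.filter (fun x => ∃ n : ℕ, 1 ≤ n ∧ T ≤ n ∧ (n : ℝ) ≤ T * W ∧ Cn n x.1 x.2) with hFA
  set FB := F.filter (fun x => x.1 ≠ 0 ∧ ∃ n : ℕ, T * W < n ∧ n.Coprime 6 ∧
    (∀ p ∈ n.primeFactors, (n : ℝ) / p < T) ∧ Cn n x.1 x.2) with hFB
  set F0 := F.filter (fun x => x.1 = 0) with hF0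
  have hcov : F ⊆ FA ∪ FB ∪ F0 := by
    intro x hx
    rw [Finset.mem_union, Finset.mem_union, hFA, hFB, hF0, Finset.mem_filter, Finset.mem_filter,
      Finset.mem_filter]
    by_cases hx0 : x.1 = 0
    · exact Or.inr ⟨hx, hx0⟩
    left
    obtain ⟨n, hn1, hTn, hC, hp⟩ := hdiv x hx
    by_cases hnR : (n : ℝ) ≤ T * W
    · exact Or.inl ⟨hx, n, hn1, hTn, hnR, hC⟩
    · right
      push Not at hnR
      refine ⟨hx, hx0, n, hnR, ?_, hp, hC⟩
      have hbig : ∀ p ∈ n.primeFactors, 3 < p := by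
        intro p hpn
        have hpp := Nat.prime_of_mem_primeFactors hpn
        have hp0 : (0 : ℝ) < p := by exact_mod_cast hpp.pos
        have h1 := hp p hpn
        rw [div_lt_iff₀ hp0] at h1
        have h2 : T * W < T * p := lt_trans hnR h1
        have h3 : W < p := lt_of_mul_lt_mul_left h2 hT0.le
        have h4 : (3 : ℝ) < p := lt_of_le_of_lt hW h3
        exact_mod_cast h4
      rw [Nat.coprime_comm]
      have h6 : (6 : ℕ) = 2 * 3 := by norm_num
      rw [h6]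
      apply Nat.Coprime.mul_left
      · rw [Nat.Prime.coprime_iff_not_dvd Nat.prime_two]
        intro h2
        have := hbig 2 (Nat.mem_primeFactors.mpr ⟨Nat.prime_two, h2, by omega⟩)
        omega
      · rw [Nat.Prime.coprime_iff_not_dvd Nat.prime_three]
        intro h2
        have := hbig 3 (Nat.mem_primeFactors.mpr ⟨Nat.prime_three, h2, by omega⟩)
        omega
  -- the bounds
  set E : ℝ := Real.exp ((5 - 6 * lam) * Real.log X +
    (1 + ε) * √(96 * lam * Real.log X / Real.log (Real.log X))) with hE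
  have hXE : X ^ (5 - 6 * lam) ≤ E := by
    rw [Real.rpow_def_of_pos hX0, hE]
    apply Real.exp_le_exp.mpr
    have : 0 ≤ (1 + ε) * √(96 * lam * Real.log X / Real.log (Real.log X)) := by positivity
    linarith
  have hA : (FA.card : ℝ) ≤ E := by
    apply ha X Y (T * W) FA hXa (by linarith) hYu hR1 hR6
    intro x hx
    rw [hFA, Finset.mem_filter] at hx
    obtain ⟨hxF, n, hn1, hn2, hn3, hn4⟩ := hx
    exact ⟨(hF x hxF).1, (hF x hxF).2.1, (hF x hxF).2.2.2.2.1, n, hn1, hn2, hn3, hn4⟩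
  have hB : (FB.card : ℝ) ≤ X ^ (5 - 6 * lam) := by
    apply hb X Y FB hXb (by linarith) hYu
    intro x hx
    rw [hFB, Finset.mem_filter] at hx
    obtain ⟨hxF, hx0, n, hn1, hn2, hn3, hn4⟩ := hx
    exact ⟨hx0, (hF x hxF).1, (hF x hxF).2.1, (hF x hxF).2.2.1, (hF x hxF).2.2.2.2.1, n, hn1, hn2,
      hn3, hn4⟩
  have h0 : (F0.card : ℝ) ≤ 3 * X ^ (5 - 6 * lam) := by
    set A : ℤ := ⌊X ^ 3⌋ with hA
    have hA0 : 0 ≤ A := Int.floor_nonneg.mpr (by positivity)
    have hsub : F0 ⊆ ({0} : Finset ℤ) ×ˢ Icc (-A) A := by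
      intro x hx
      rw [hF0, Finset.mem_filter] at hx
      rw [Finset.mem_product, Finset.mem_singleton, Finset.mem_Icc]
      refine ⟨hx.2, ?_⟩
      have h1 : |x.2| ≤ A := by
        rw [hA, Int.le_floor]; push_cast; exact (hF x hx.1).2.2.1
      exact abs_le.mp h1
    have h1 := Finset.card_le_card hsub
    rw [Finset.card_product, Finset.card_singleton, Int.card_Icc, one_mul] at h1
    have h2 : (A + 1 - -A).toNat = 2 * A.toNat + 1 := by omega
    rw [h2] at h1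
    have h4 : (A.toNat : ℝ) ≤ X ^ 3 := by
      have : ((A.toNat : ℤ) : ℝ) = (A : ℝ) := by rw [Int.toNat_of_nonneg hA0]
      have h5 : (A.toNat : ℝ) = (A : ℝ) := by rw [← this]; norm_cast
      rw [h5]; exact Int.floor_le _
    have hX3 : 1 ≤ X ^ 3 := one_le_pow₀ hX1
    have h5 : X ^ 3 ≤ X ^ (5 - 6 * lam) := by
      rw [← Real.rpow_natCast X 3]
      apply Real.rpow_le_rpow_of_exponent_le hX1
      push_cast
      linarith
    calc (F0.card : ℝ) ≤ ((2 * A.toNat + 1 : ℕ) : ℝ) := by exact_mod_cast h1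
      _ = 2 * (A.toNat : ℝ) + 1 := by push_cast; ring
      _ ≤ 3 * X ^ 3 := by linarith
      _ ≤ _ := by linarith
  have hfin : F.card ≤ FA.card + FB.card + F0.card := by
    refine (Finset.card_le_card hcov).trans ?_
    refine (Finset.card_union_le _ _).trans ?_
    exact Nat.add_le_add_right (Finset.card_union_le _ _) _
  calc (F.card : ℝ) ≤ (FA.card : ℝ) + FB.card + F0.card := by exact_mod_cast hfin
    _ ≤ 5 * E := by linarith

/-- UP, the upper bound -/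
theorem up (h1 : S_GAIN) (h2 : S_CNT) (h3 : S_UPA) (h4 : S_UPB) : S_UP := by
  classical
  intro lam ε hl0 hl1 hε
  obtain ⟨C, hC, hcnt⟩ := h2
  obtain ⟨Xb, hXb3, hb⟩ := up_block h1 h3 h4 lam (ε / 2) hl0 hl1 (by positivity)
  have hasym := up_asym (2 * C) (96 * lam) (ε / 2) (by positivity) (by positivity)
  obtain ⟨Xc, hXc⟩ := eventually_atTop.mp hasym
  refine ⟨max (max Xb Xc) 31, by
    have := le_max_right (max Xb Xc) 31
    linarith, ?_⟩
  intro X F hX hF
  have hXb : Xb ≤ X := ((le_max_left _ _).trans (le_max_left _ _)).trans hX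
  have hXc' : Xc ≤ X := ((le_max_right _ _).trans (le_max_left _ _)).trans hX
  have hX31 : (31 : ℝ) ≤ X := (le_max_right _ _).trans hX
  have has := hXc X hXc'
  have hX0 : 0 < X := by linarith
  have hX1 : 1 ≤ X := by linarith
  have hX6 : 1 ≤ X ^ 6 := one_le_pow₀ hX1
  set Y₀ : ℝ := X ^ (6 - 36 * lam / 5) with hY₀
  have hY₀1 : 1 ≤ Y₀ := Real.one_le_rpow hX1 (by linarith)
  have hY₀u : Y₀ ≤ 31 * X ^ 6 := by
    have : Y₀ ≤ X ^ ((6 : ℕ) : ℝ) := by
      rw [hY₀]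
      apply Real.rpow_le_rpow_of_exponent_le hX1
      push_cast
      linarith
    rw [Real.rpow_natCast] at this
    linarith
  set s : ℝ := √(96 * lam * Real.log X / Real.log (Real.log X)) with hs
  have hs0 : 0 ≤ s := Real.sqrt_nonneg _
  set E : ℝ := Real.exp ((5 - 6 * lam) * Real.log X + (1 + ε / 2) * s) with hE
  have hE0 : 0 < E := Real.exp_pos _
  have hXE : X ^ (5 - 6 * lam) ≤ E := by
    rw [Real.rpow_def_of_pos hX0, hE]
    apply Real.exp_le_exp.mpr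
    have : 0 ≤ (1 + ε / 2) * s := by positivity
    linarith
  -- the small discriminants
  set F1 := F.filter (fun x => |((Dd x.1 x.2 : ℤ) : ℝ)| ≤ Y₀) with hF1
  have hrd1 : rd 1 = 1 := by simp [rd]
  have hcc1 : cc 1 = 1 := by simp [cc]
  have hc1 : (F1.card : ℝ) ≤ 2 * C * E := by
    have h := hcnt X Y₀ 1 hX1 hY₀1 hY₀u le_rfl (by rw [hrd1]; norm_num; exact hY₀1) F1 (by
      intro x hx
      rw [hF1, Finset.mem_filter] at hx
      refine ⟨(hF x hx.1).1, (hF x hx.1).2.1, hx.2, ?_⟩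
      intro p hp
      simp at hp)
    rw [hrd1, hcc1] at h
    have e1 : Y₀ ^ (5 / 6 : ℝ) = X ^ (5 - 6 * lam) := by
      rw [hY₀, ← Real.rpow_mul hX0.le]
      congr 1
      ring
    have e2 : X ^ 2 ≤ X ^ (5 - 6 * lam) := by
      rw [← Real.rpow_natCast X 2]
      apply Real.rpow_le_rpow_of_exponent_le hX1
      push_cast
      linarith
    rw [e1] at h
    push_cast at h
    calc (F1.card : ℝ) ≤ C * 1 * (X ^ (5 - 6 * lam) / 1 + X ^ 2) := h
      _ ≤ C * 1 * (E / 1 + E) := by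
          apply mul_le_mul_of_nonneg_left _ (by positivity)
          have := e2.trans hXE
          have := hXE
          simp only [mul_one, div_one]
          linarith
      _ = 2 * C * E := by ring
  -- the large discriminants
  set Yk : ℕ → ℝ := fun k => 31 * X ^ 6 / 2 ^ k with hYk
  set G : ℕ → Finset (ℤ × ℤ) := fun k => F.filter (fun x => Y₀ < |((Dd x.1 x.2 : ℤ) : ℝ)| ∧
    Yk k / 2 < |((Dd x.1 x.2 : ℤ) : ℝ)| ∧ |((Dd x.1 x.2 : ℤ) : ℝ)| ≤ Yk k) with hG
  have hGc : ∀ k, ((G k).card : ℝ) ≤ 5 * E := by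
    intro k
    by_cases hY : Y₀ ≤ Yk k
    · apply hb X (Yk k) (G k) hXb hY
      · rw [hYk]
        apply div_le_self (by positivity)
        exact one_le_pow₀ (by norm_num)
      · intro x hx
        rw [hG, Finset.mem_filter] at hx
        obtain ⟨hxF, -, h5, h6⟩ := hx
        obtain ⟨h7, h8, h9, h10⟩ := hF x hxF
        exact ⟨h7, h8, h9, h5, h6, h10⟩
    · have : G k = ∅ := by
        rw [Finset.eq_empty_iff_forall_notMem]
        intro x hx
        rw [hG, Finset.mem_filter] at hx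
        apply hY
        linarith [hx.2.1, hx.2.2.2]
      rw [this]
      simp only [Finset.card_empty, Nat.cast_zero]
      positivity
  have hlogX : 1 ≤ Real.log X := by
    rw [Real.le_log_iff_exp_le hX0]
    have := Real.exp_one_lt_d9
    linarith
  set K : ℕ := ⌊11 * Real.log X⌋₊ with hK
  have hKle : (K : ℝ) ≤ 11 * Real.log X := Nat.floor_le (by positivity)
  have hcov : F ⊆ F1 ∪ (range (K + 1)).biUnion G := by
    intro x hx
    rw [Finset.mem_union]
    by_cases hxs : |((Dd x.1 x.2 : ℤ) : ℝ)| ≤ Y₀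
    · left
      rw [hF1, Finset.mem_filter]
      exact ⟨hx, hxs⟩
    right
    push Not at hxs
    obtain ⟨hM, ha, hb', -⟩ := hF x hx
    have hDu := D_bound ha hb'
    have hD1 : 1 ≤ |((Dd x.1 x.2 : ℤ) : ℝ)| := by
      have := Int.one_le_abs hM.1
      exact_mod_cast this
    have hD0 : 0 < |((Dd x.1 x.2 : ℤ) : ℝ)| := by linarith
    obtain ⟨k, hk1, hk2⟩ := exists_nat_pow_near (x := 31 * X ^ 6 / |((Dd x.1 x.2 : ℤ) : ℝ)|)
      (y := 2) (by rw [le_div_iff₀ hD0]; linarith) (by norm_num)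
    have h2k : (0 : ℝ) < 2 ^ k := by positivity
    rw [Finset.mem_biUnion]
    refine ⟨k, ?_, ?_⟩
    · rw [Finset.mem_range, Nat.lt_succ_iff, hK]
      apply Nat.le_floor
      have h5 : (2 : ℝ) ^ k ≤ 31 * X ^ 6 := by
        refine hk1.trans ?_
        exact div_le_self (by positivity) hD1
      have h6 : Real.log ((2 : ℝ) ^ k) ≤ Real.log (31 * X ^ 6) :=
        Real.log_le_log h2k h5
      rw [Real.log_pow, Real.log_mul (by norm_num) (by positivity), Real.log_pow] at h6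
      have h7 : Real.log 31 ≤ Real.log X := Real.log_le_log (by norm_num) hX31
      have h8 := Real.log_two_gt_d9
      push_cast at h6
      have h9 : (k : ℝ) * 0.6931471803 ≤ k * Real.log 2 :=
        mul_le_mul_of_nonneg_left h8.le (by positivity)
      nlinarith
    · rw [hG, Finset.mem_filter]
      refine ⟨hx, hxs, ?_, ?_⟩
      · rw [hYk]
        rw [div_lt_iff₀ hD0] at hk2
        rw [div_div, div_lt_iff₀ (by positivity)]
        calc 31 * X ^ 6 < 2 ^ (k + 1) * |((Dd x.1 x.2 : ℤ) : ℝ)| := hk2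
          _ = |((Dd x.1 x.2 : ℤ) : ℝ)| * (2 ^ k * 2) := by ring
      · rw [hYk]
        rw [le_div_iff₀ hD0] at hk1
        rw [le_div_iff₀ h2k]
        linarith
  have hc2 : (((range (K + 1)).biUnion G).card : ℝ) ≤ 60 * Real.log X * E := by
    calc (((range (K + 1)).biUnion G).card : ℝ) ≤ ((∑ k ∈ range (K + 1), (G k).card : ℕ) : ℝ) := by
          exact_mod_cast Finset.card_biUnion_le
      _ = ∑ k ∈ range (K + 1), ((G k).card : ℝ) := by push_cast; rfl
      _ ≤ ∑ k ∈ range (K + 1), 5 * E := Finset.sum_le_sum (fun k _ => hGc k)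
      _ = ((K : ℝ) + 1) * (5 * E) := by
          rw [Finset.sum_const, Finset.card_range, nsmul_eq_mul]; push_cast; ring
      _ ≤ (12 * Real.log X) * (5 * E) := by
          apply mul_le_mul_of_nonneg_right _ (by positivity)
          linarith
      _ = 60 * Real.log X * E := by ring
  have hcard : (F.card : ℝ) ≤ F1.card + ((range (K + 1)).biUnion G).card := by
    exact_mod_cast (Finset.card_le_card hcov).trans (Finset.card_union_le _ _)
  calc (F.card : ℝ) ≤ (2 * C + 60 * Real.log X) * E := by linarith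
    _ ≤ Real.exp (ε / 2 * s) * E := mul_le_mul_of_nonneg_right has hE0.le
    _ = Real.exp ((5 - 6 * lam) * Real.log X + (1 + ε) * s) := by
        rw [hE, ← Real.exp_add]
        congr 1
        ring

end Pool.Agent.N92.SZ
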