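import Pool.Agent.N906.SZ.Stm

set_option autoImplicit false

namespace Pool.Agent.N92.SZ

open Finset Pool.Agent.N906.SZ

/-- LP from CONIC -/
theorem lp (h : S_CONIC) : S_LP := by
  intro ε hε
  obtain ⟨C, hC, hc⟩ := h (ε / 6) (by positivity)
  refine ⟨186 * (C * 108 ^ (ε / 6)), by positivity, ?_⟩
  intro X P hX hP F hF
  have hX0 : 0 < X := by linarith
  have hP0 : 0 < P := by linarith
  choose! p hpP hpd using fun x (hx : x ∈ F) => (hF x hx).2.2.2.2
  set r : ℤ × ℤ → ℤ := fun x => Dd x.1 x.2 / (p x : ℤ) ^ 2 with hr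
  have hrD : ∀ x ∈ F, Dd x.1 x.2 = (p x : ℤ) ^ 2 * r x := fun x hx =>
    (Int.mul_ediv_cancel' (hpd x hx)).symm
  have hr0 : ∀ x ∈ F, r x ≠ 0 := by
    intro x hx h0
    have := hrD x hx
    rw [h0, mul_zero] at this
    exact (hF x hx).2.2.2.1 this
  have hp1 : ∀ x ∈ F, (1 : ℝ) ≤ p x := fun x hx => hP.trans (hpP x hx)
  have hD : ∀ x ∈ F, |((Dd x.1 x.2 : ℤ) : ℝ)| ≤ 31 * X ^ 6 := by
    intro x hx
    obtain ⟨-, h1, h2, -, -⟩ := hF x hx
    have e : ((Dd x.1 x.2 : ℤ) : ℝ) = 4 * (x.1 : ℝ) ^ 3 - 27 * (x.2 : ℝ) ^ 2 := by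
      unfold Dd; push_cast; ring
    rw [e]
    have h3 : |(x.1 : ℝ) ^ 3| ≤ X ^ 6 := by
      rw [abs_pow]
      calc |(x.1 : ℝ)| ^ 3 ≤ (X ^ 2) ^ 3 := pow_le_pow_left₀ (abs_nonneg _) h1 3
        _ = X ^ 6 := by ring
    have h4 : |(x.2 : ℝ) ^ 2| ≤ X ^ 6 := by
      rw [abs_pow]
      calc |(x.2 : ℝ)| ^ 2 ≤ (X ^ 3) ^ 2 := pow_le_pow_left₀ (abs_nonneg _) h2 2
        _ = X ^ 6 := by ring
    rw [abs_le] at h3 h4 ⊢
    constructor <;> linarith [h3.1, h3.2, h4.1, h4.2]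
  have hDr : ∀ x ∈ F, (p x : ℝ) ^ 2 * |(r x : ℝ)| ≤ 31 * X ^ 6 := by
    intro x hx
    have h1 := hD x hx
    rw [hrD x hx] at h1
    push_cast at h1
    rwa [abs_mul, abs_of_nonneg (by positivity : (0 : ℝ) ≤ (p x : ℝ) ^ 2)] at h1
  have hrR : ∀ x ∈ F, |(r x : ℝ)| ≤ 31 * X ^ 6 / P ^ 2 := by
    intro x hx
    rw [le_div_iff₀ (by positivity)]
    calc |(r x : ℝ)| * P ^ 2 ≤ |(r x : ℝ)| * (p x : ℝ) ^ 2 := by
          apply mul_le_mul_of_nonneg_left _ (abs_nonneg _)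
          exact pow_le_pow_left₀ hP0.le (hpP x hx) 2
      _ = (p x : ℝ) ^ 2 * |(r x : ℝ)| := by ring
      _ ≤ _ := hDr x hx
  have hr1 : ∀ x ∈ F, (1 : ℝ) ≤ |(r x : ℝ)| := by
    intro x hx
    have := Int.one_le_abs (hr0 x hx)
    exact_mod_cast this
  have hpX : ∀ x ∈ F, (p x : ℝ) ≤ 6 * X ^ 3 := by
    intro x hx
    have h1 : (p x : ℝ) ^ 2 ≤ 31 * X ^ 6 := by
      calc (p x : ℝ) ^ 2 ≤ (p x : ℝ) ^ 2 * |(r x : ℝ)| :=
            le_mul_of_one_le_right (by positivity) (hr1 x hx)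
        _ ≤ _ := hDr x hx
    have h2 : (p x : ℝ) ^ 2 ≤ (6 * X ^ 3) ^ 2 := by
      nlinarith [pow_pos hX0 6]
    exact (pow_le_pow_iff_left₀ (by positivity) (by positivity) two_ne_zero).mp h2
  set B : ℝ := 108 * X ^ 6 with hB
  have hX6 : 1 ≤ X ^ 6 := one_le_pow₀ hX
  have hX3 : 1 ≤ X ^ 3 := one_le_pow₀ hX
  have hX36 : X ^ 3 ≤ X ^ 6 := pow_le_pow_right₀ hX (by norm_num)
  have hB1 : 1 ≤ B := by rw [hB]; linarith
  -- the fibres
  have hfib : ∀ y ∈ F.image (fun x => (x.1, r x)),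
      (F.filter (fun x => (x.1, r x) = y)).card ≤ ⌊C * B ^ (ε / 6)⌋₊ := by
    intro y hy
    obtain ⟨x₀, hx₀, rfl⟩ := Finset.mem_image.mp hy
    apply Nat.le_floor
    set G := F.filter (fun x => (x.1, r x) = (x₀.1, r x₀)) with hG
    have hinj : Set.InjOn (fun x : ℤ × ℤ => (27 * x.2, (p x : ℤ))) (G : Set (ℤ × ℤ)) := by
      intro x hx y hy hxy
      simp only [hG, coe_filter, Set.mem_ofPred_eq, Prod.mk.injEq] at hx hy hxy
      ext
      · rw [hx.2.1, hy.2.1]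
      · omega
    rw [← Finset.card_image_of_injOn hinj]
    apply hc (27 * r x₀) (108 * x₀.1 ^ 3) B
    · exact mul_ne_zero (by norm_num) (hr0 x₀ hx₀)
    · exact mul_ne_zero (by norm_num) (pow_ne_zero _ (hF x₀ hx₀).1)
    · exact hB1
    · push_cast
      rw [abs_mul, abs_of_pos (by norm_num : (0 : ℝ) < 108), abs_pow, hB]
      have : |(x₀.1 : ℝ)| ^ 3 ≤ X ^ 6 := by
        calc |(x₀.1 : ℝ)| ^ 3 ≤ (X ^ 2) ^ 3 := pow_le_pow_left₀ (abs_nonneg _) (hF x₀ hx₀).2.1 3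
          _ = X ^ 6 := by ring
      linarith
    · intro z hz
      obtain ⟨x, hx, rfl⟩ := Finset.mem_image.mp hz
      rw [hG, Finset.mem_filter, Prod.mk.injEq] at hx
      obtain ⟨hxF, hx1, hx2⟩ := hx
      refine ⟨?_, ?_, ?_⟩
      · simp only
        push_cast
        rw [abs_mul, abs_of_pos (by norm_num : (0 : ℝ) < 27)]
        have := (hF x hxF).2.2.1
        rw [hB]; linarith
      · simp only
        have h1 := hpX x hxF
        rw [abs_of_nonneg (by positivity)]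
        push_cast
        rw [hB]; linarith
      · simp only
        have h1 := hrD x hxF
        unfold Dd at h1
        rw [← hx1, ← hx2]
        linear_combination (-27) * h1
  have hcard := Finset.card_le_mul_card_image (f := fun x : ℤ × ℤ => (x.1, r x)) F _ hfib
  -- the image
  have hnA : ((F.image (fun x => (x.1, r x))).card : ℝ) ≤ 3 * X ^ 2 * (2 * (31 * X ^ 6 / P ^ 2)) := by
    set A : ℤ := ⌊X ^ 2⌋ with hA
    set R : ℤ := ⌊31 * X ^ 6 / P ^ 2⌋ with hR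
    have hA0 : 0 ≤ A := Int.floor_nonneg.mpr (by positivity)
    have hR0 : 0 ≤ R := Int.floor_nonneg.mpr (by positivity)
    have hsub : F.image (fun x => (x.1, r x)) ⊆ Icc (-A) A ×ˢ ((Icc (-R) R).erase 0) := by
      intro y hy
      obtain ⟨x, hx, rfl⟩ := Finset.mem_image.mp hy
      rw [Finset.mem_product, Finset.mem_erase, Finset.mem_Icc, Finset.mem_Icc]
      have h1 : |x.1| ≤ A := by
        rw [hA, Int.le_floor]; push_cast; exact (hF x hx).2.1
      have h2 : |r x| ≤ R := by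
        rw [hR, Int.le_floor]; push_cast; exact hrR x hx
      rw [abs_le] at h1 h2
      exact ⟨h1, hr0 x hx, h2⟩
    have h1 := Finset.card_le_card hsub
    rw [Finset.card_product, Finset.card_erase_of_mem (by rw [Finset.mem_Icc]; omega),
      Int.card_Icc, Int.card_Icc] at h1
    have h2 : (A + 1 - -A).toNat = 2 * A.toNat + 1 := by omega
    have h3 : (R + 1 - -R).toNat - 1 = 2 * R.toNat := by omega
    rw [h2, h3] at h1
    have h4 : (A.toNat : ℝ) ≤ X ^ 2 := by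
      have : ((A.toNat : ℤ) : ℝ) = (A : ℝ) := by rw [Int.toNat_of_nonneg hA0]
      have h5 : (A.toNat : ℝ) = (A : ℝ) := by rw [← this]; norm_cast
      rw [h5]; exact Int.floor_le _
    have h5 : (R.toNat : ℝ) ≤ 31 * X ^ 6 / P ^ 2 := by
      have : ((R.toNat : ℤ) : ℝ) = (R : ℝ) := by rw [Int.toNat_of_nonneg hR0]
      have h5 : (R.toNat : ℝ) = (R : ℝ) := by rw [← this]; norm_cast
      rw [h5]; exact Int.floor_le _
    have hX2 : 1 ≤ X ^ 2 := one_le_pow₀ hX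
    calc ((F.image (fun x => (x.1, r x))).card : ℝ)
        ≤ (((2 * A.toNat + 1) * (2 * R.toNat) : ℕ) : ℝ) := by exact_mod_cast h1
      _ = (2 * (A.toNat : ℝ) + 1) * (2 * (R.toNat : ℝ)) := by push_cast; ring
      _ ≤ (3 * X ^ 2) * (2 * (31 * X ^ 6 / P ^ 2)) := by
          apply mul_le_mul
          · linarith
          · linarith
          · positivity
          · positivity
  have hfl : (⌊C * B ^ (ε / 6)⌋₊ : ℝ) ≤ C * B ^ (ε / 6) :=
    Nat.floor_le (by positivity)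
  have hBe : B ^ (ε / 6) = 108 ^ (ε / 6) * X ^ ε := by
    rw [hB, Real.mul_rpow (by norm_num) (by positivity), ← Real.rpow_natCast X 6,
      ← Real.rpow_mul hX0.le]
    congr 2
    push_cast
    ring
  have hX8 : X ^ (8 + ε) = X ^ 8 * X ^ ε := by
    rw [Real.rpow_add hX0]
    congr 1
    exact_mod_cast Real.rpow_natCast X 8
  calc (F.card : ℝ) ≤ ((⌊C * B ^ (ε / 6)⌋₊ * (F.image (fun x => (x.1, r x))).card : ℕ) : ℝ) := by
        exact_mod_cast hcard
    _ = (⌊C * B ^ (ε / 6)⌋₊ : ℝ) * ((F.image (fun x => (x.1, r x))).card : ℝ) := by push_cast; ring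
    _ ≤ (C * B ^ (ε / 6)) * (3 * X ^ 2 * (2 * (31 * X ^ 6 / P ^ 2))) := by
        apply mul_le_mul hfl hnA (by positivity) (by positivity)
    _ = 186 * (C * 108 ^ (ε / 6)) * X ^ (8 + ε) / P ^ 2 := by
        rw [hBe, hX8]
        ring

end Pool.Agent.N92.SZ
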